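import Pool.Agent.Helper64.EA.TOne
import Pool.Agent.Helper38.EA.C2

/-!
# Block EA-C3: the sharper quadruple sum

`Q = q τ`, `η = Q^(-1/10)`, `κ = 1/(η τ)`. If one of the two factors `wq (a, b) ≤ η / max (a, b)`: `t1_sum`. Otherwise `g = gcd` of the two gcds is `≥ η² q`, divides `r² - v²` and `s² - u²`, and
`|r - v| ≤ κ max (r, v)`, `|s - u| ≤ κ max (s, u)`: `pair_sum` twice. The diagonal terms `r = v = 1` and `s = u = 1`: `gsum`.
-/

set_option autoImplicit false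

namespace Pool.Agent.Helper51.EA

open Finset Pool.Agent.Helper5.RM Pool.Agent.Helper5.RS

private lemma sum_inj64 {α β : Type*} [DecidableEq β] (s : Finset α) (t : Finset β) (f : α → ℝ) (g : β → ℝ)
    (e : α → β) (he : ∀ a ∈ s, e a ∈ t) (hi : ∀ a ∈ s, ∀ b ∈ s, e a = e b → a = b)
    (hf : ∀ a ∈ s, f a ≤ g (e a)) (hg : ∀ b ∈ t, 0 ≤ g b) : ∑ a ∈ s, f a ≤ ∑ b ∈ t, g b := by
  calc ∑ a ∈ s, f a ≤ ∑ a ∈ s, g (e a) := sum_le_sum hf
    _ = ∑ b ∈ s.image e, g b := (sum_image (fun a ha b hb h => hi a ha b hb h)).symm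
    _ ≤ ∑ b ∈ t, g b := sum_le_sum_of_subset_of_nonneg (image_subset_iff.2 he) (fun b hb _ => hg b hb)

private theorem dst_comm64 (a b : ℕ) : dst a b = dst b a := by
  unfold dst
  omega

private theorem wq_comm64' (q : ℕ) (τ : ℝ) (a b : ℕ) : wq q τ a b = wq q τ b a := by
  unfold wq
  rw [dst_comm64, max_comm]

private theorem wq_nonneg64' (q : ℕ) (τ : ℝ) (hτ : 1 ≤ τ) (a b : ℕ) : 0 ≤ wq q τ a b := by
  unfold wq
  refine mul_nonneg (by positivity) (le_min (by positivity) ?_)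
  have : 0 ≤ τ := by linarith
  positivity

private theorem Xi_nonneg64' (q : ℕ) (τ : ℝ) (hτ : 1 ≤ τ) : 0 ≤ Xi q τ := by
  unfold Xi
  have h1 : 0 ≤ Real.log τ := Real.log_nonneg hτ
  have h2 : 0 ≤ τ := by linarith
  positivity

private theorem gcd_div_le64 (q h : ℕ) (hq : 1 ≤ q) : (Nat.gcd q h : ℝ) / q ≤ 1 := by
  have hq' : (0 : ℝ) < q := by exact_mod_cast hq
  rw [div_le_one hq']
  exact_mod_cast Nat.gcd_le_left _ hq

private theorem wq_le_inv64 (q : ℕ) (τ : ℝ) (hq : 1 ≤ q) (a b : ℕ) :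
    wq q τ a b ≤ 1 / ((max a b : ℕ) : ℝ) := by
  unfold wq
  have h1 := gcd_div_le64 q (dst a b) hq
  have h2 : (0 : ℝ) ≤ (Nat.gcd q (dst a b) : ℝ) / q := by positivity
  have h3 : (0 : ℝ) ≤ 1 / ((max a b : ℕ) : ℝ) := by positivity
  calc _ ≤ (Nat.gcd q (dst a b) : ℝ) / q * (1 / ((max a b : ℕ) : ℝ)) :=
        mul_le_mul_of_nonneg_left (min_le_left _ _) h2
    _ ≤ 1 * (1 / ((max a b : ℕ) : ℝ)) := mul_le_mul_of_nonneg_right h1 h3
    _ = _ := one_mul _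

/-- the alternative for one factor -/
private theorem alt64 (q : ℕ) (τ η : ℝ) (hq : 1 ≤ q) (hτ : 1 ≤ τ) (hη : 0 < η) (a b : ℕ) (ha : 1 ≤ a) (hab : a ≠ b) :
    wq q τ a b ≤ η * (1 / ((max a b : ℕ) : ℝ)) ∨
      (η * q ≤ (Nat.gcd q (dst a b) : ℝ) ∧ (dst a b : ℝ) ≤ 1 / (η * τ) * ((max a b : ℕ) : ℝ)) := by
  have hq' : (0 : ℝ) < q := by exact_mod_cast hq
  have hτ' : 0 < τ := by linarith
  have hM : (0 : ℝ) < ((max a b : ℕ) : ℝ) := by
    have : 0 < max a b := lt_of_lt_of_le ha (le_max_left _ _)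
    exact_mod_cast this
  have hh : (0 : ℝ) < dst a b := by
    have : 0 < dst a b := by
      unfold dst
      omega
    exact_mod_cast this
  have h0 : (0 : ℝ) ≤ (Nat.gcd q (dst a b) : ℝ) / q := by positivity
  have hM1 : (0 : ℝ) < 1 / ((max a b : ℕ) : ℝ) := by positivity
  by_cases h1 : η * q ≤ (Nat.gcd q (dst a b) : ℝ)
  · by_cases h2 : (dst a b : ℝ) ≤ 1 / (η * τ) * ((max a b : ℕ) : ℝ)
    · exact Or.inr ⟨h1, h2⟩
    · left
      rw [not_le] at h2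
      have h3 : 1 / (τ * (dst a b : ℝ)) ≤ η * (1 / ((max a b : ℕ) : ℝ)) := by
        rw [mul_one_div, div_le_div_iff₀ (by positivity) hM, one_mul]
        have h4 : 1 / (η * τ) * ((max a b : ℕ) : ℝ) * (η * τ) < (dst a b : ℝ) * (η * τ) :=
          mul_lt_mul_of_pos_right h2 (by positivity)
        have h5 : 1 / (η * τ) * ((max a b : ℕ) : ℝ) * (η * τ) = ((max a b : ℕ) : ℝ) := by
          field_simp
        rw [h5] at h4
        calc ((max a b : ℕ) : ℝ) ≤ (dst a b : ℝ) * (η * τ) := h4.le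
          _ = _ := by ring
      unfold wq
      calc _ ≤ (Nat.gcd q (dst a b) : ℝ) / q * (1 / (τ * (dst a b : ℝ))) :=
            mul_le_mul_of_nonneg_left (min_le_right _ _) h0
        _ ≤ 1 * (1 / (τ * (dst a b : ℝ))) :=
            mul_le_mul_of_nonneg_right (gcd_div_le64 q _ hq) (by positivity)
        _ ≤ _ := by rw [one_mul]; exact h3
  · left
    rw [not_le] at h1
    have h3 : (Nat.gcd q (dst a b) : ℝ) / q ≤ η := by
      rw [div_le_iff₀ hq']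
      exact h1.le
    unfold wq
    calc _ ≤ (Nat.gcd q (dst a b) : ℝ) / q * (1 / ((max a b : ℕ) : ℝ)) :=
          mul_le_mul_of_nonneg_left (min_le_left _ _) h0
      _ ≤ _ := mul_le_mul_of_nonneg_right h3 hM1.le

private theorem dvd_dst64 {g a b : ℕ} (h : g ∣ dst a b) : (g : ℤ) ∣ (a : ℤ) - b := by
  have h1 : (g : ℤ) ∣ ((dst a b : ℕ) : ℤ) := Int.natCast_dvd_natCast.2 h
  rcases le_total a b with hab | hab
  · have h2 : ((dst a b : ℕ) : ℤ) = -((a : ℤ) - b) := by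
      unfold dst
      omega
    rw [h2] at h1
    exact (dvd_neg).1 h1
  · have h2 : ((dst a b : ℕ) : ℤ) = (a : ℤ) - b := by
      unfold dst
      omega
    rwa [h2] at h1

private theorem cop64 {g r s u v : ℤ} (h : g ∣ r * s - u * v) (hc : IsCoprime s (u * v)) : IsCoprime g s := by
  obtain ⟨c, hc'⟩ := h
  obtain ⟨a, b, hab⟩ := hc
  exact ⟨-b * c, a + b * r, by linear_combination hab + b * hc'⟩

private theorem div64 {g r s u v : ℕ} (h1 : g ∣ dst (r * s) (u * v)) (h2 : g ∣ dst (r * u) (s * v))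
    (hrs : Nat.Coprime r u) (hrv : Nat.Coprime r v) (hsu : Nat.Coprime s u) (hsv : Nat.Coprime s v) :
    (g : ℤ) ∣ (r : ℤ) ^ 2 - (v : ℤ) ^ 2 ∧ (g : ℤ) ∣ (s : ℤ) ^ 2 - (u : ℤ) ^ 2 := by
  have e1 : (g : ℤ) ∣ (r : ℤ) * s - u * v := by
    have := dvd_dst64 h1
    push_cast at this
    exact this
  have e2 : (g : ℤ) ∣ (r : ℤ) * u - s * v := by
    have := dvd_dst64 h2
    push_cast at this
    exact this
  have c1 : IsCoprime (s : ℤ) ((u : ℤ) * v) :=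
    IsCoprime.mul_right (Nat.isCoprime_iff_coprime.2 hsu) (Nat.isCoprime_iff_coprime.2 hsv)
  have c2 : IsCoprime (r : ℤ) ((u : ℤ) * v) :=
    IsCoprime.mul_right (Nat.isCoprime_iff_coprime.2 hrs) (Nat.isCoprime_iff_coprime.2 hrv)
  have d1 : IsCoprime (g : ℤ) (s : ℤ) := cop64 e1 c1
  have d2 : IsCoprime (g : ℤ) (r : ℤ) := by
    refine cop64 (r := (s : ℤ)) (s := (r : ℤ)) (u := (u : ℤ)) (v := (v : ℤ)) ?_ c2
    rwa [mul_comm (s : ℤ) r]
  constructor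
  · refine d1.dvd_of_dvd_mul_left ?_
    have : (s : ℤ) * ((r : ℤ) ^ 2 - (v : ℤ) ^ 2) = r * ((r : ℤ) * s - u * v) + v * ((r : ℤ) * u - s * v) := by ring
    rw [this]
    exact dvd_add (Dvd.dvd.mul_left e1 _) (Dvd.dvd.mul_left e2 _)
  · refine d2.dvd_of_dvd_mul_left ?_
    have : (r : ℤ) * ((s : ℤ) ^ 2 - (u : ℤ) ^ 2) = s * ((r : ℤ) * s - u * v) - u * ((r : ℤ) * u - s * v) := by ring
    rw [this]
    exact dvd_sub (Dvd.dvd.mul_left e1 _) (Dvd.dvd.mul_left e2 _)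

private theorem dst_real64 (a b : ℕ) : (a : ℝ) - b ≤ dst a b ∧ (b : ℝ) - a ≤ dst a b := by
  have h1 : a ≤ b + dst a b := by
    unfold dst
    omega
  have h2 : b ≤ a + dst a b := by
    unfold dst
    omega
  have h1' : (a : ℝ) ≤ b + dst a b := by exact_mod_cast h1
  have h2' : (b : ℝ) ≤ a + dst a b := by exact_mod_cast h2
  constructor <;> linarith

/-- from `|a - b| ≤ κ max (a, b)` -/
private theorem lower64 (a b : ℕ) (κ : ℝ) (hκ0 : 0 ≤ κ)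
    (h : (dst a b : ℝ) ≤ κ * ((max a b : ℕ) : ℝ)) : (1 - κ) * a ≤ b := by
  have hb : (0 : ℝ) ≤ b := by positivity
  have ha : (0 : ℝ) ≤ a := by positivity
  rcases le_total a b with hab | hab
  · have : (a : ℝ) ≤ b := by exact_mod_cast hab
    nlinarith
  · rw [max_eq_left hab] at h
    have := (dst_real64 a b).1
    linarith

private theorem close64 (r s u v : ℕ) (hr : 1 ≤ r) (hs : 1 ≤ s) (hu : 1 ≤ u) (hv : 1 ≤ v) (κ : ℝ) (hκ0 : 0 ≤ κ)
    (h1 : (dst (r * s) (u * v) : ℝ) ≤ κ * ((max (r * s) (u * v) : ℕ) : ℝ))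
    (h2 : (dst (r * u) (s * v) : ℝ) ≤ κ * ((max (r * u) (s * v) : ℕ) : ℝ)) :
    (dst r v : ℝ) ≤ κ * ((max r v : ℕ) : ℝ) := by
  have hr0 : (0 : ℝ) < r := by exact_mod_cast hr
  have hs0 : (0 : ℝ) < s := by exact_mod_cast hs
  have hu0 : (0 : ℝ) < u := by exact_mod_cast hu
  have hv0 : (0 : ℝ) < v := by exact_mod_cast hv
  have hM : (0 : ℝ) ≤ ((max r v : ℕ) : ℝ) := by positivity
  have hd : (dst r v : ℝ) ≤ ((max r v : ℕ) : ℝ) := by
    have : dst r v ≤ max r v := by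
      unfold dst
      omega
    exact_mod_cast this
  rcases le_total 1 κ with hκ | hκ
  · nlinarith
  have hk : 0 ≤ 1 - κ := by linarith
  have key : ∀ x y z w : ℝ, 0 < x → 0 < y → 0 < z → 0 < w → (1 - κ) * (x * y) ≤ z * w →
      (1 - κ) * (x * z) ≤ y * w → (1 - κ) * x ≤ w := by
    intro x y z w hx hy hz hw g1 g2
    have g3 : ((1 - κ) * (x * y)) * ((1 - κ) * (x * z)) ≤ (z * w) * (y * w) :=
      mul_le_mul g1 g2 (by positivity) (by positivity)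
    have g4 : (((1 - κ) * x) ^ 2) * (y * z) ≤ (w ^ 2) * (y * z) := by nlinarith
    have g5 : ((1 - κ) * x) ^ 2 ≤ w ^ 2 := le_of_mul_le_mul_right g4 (by positivity)
    exact (pow_le_pow_iff_left₀ (by positivity) hw.le (by norm_num)).1 g5
  have a1 := lower64 _ _ κ hκ0 h1
  have a2 := lower64 _ _ κ hκ0 h2
  have a3 : (1 - κ) * ((u * v : ℕ) : ℝ) ≤ ((r * s : ℕ) : ℝ) := by
    refine lower64 _ _ κ hκ0 ?_
    rw [dst_comm64, max_comm]
    exact h1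
  have a4 : (1 - κ) * ((s * v : ℕ) : ℝ) ≤ ((r * u : ℕ) : ℝ) := by
    refine lower64 _ _ κ hκ0 ?_
    rw [dst_comm64, max_comm]
    exact h2
  push_cast at a1 a2 a3 a4
  have b1 : (1 - κ) * (r : ℝ) ≤ v := key r s u v hr0 hs0 hu0 hv0 a1 a2
  have b2 : (1 - κ) * (v : ℝ) ≤ r := by
    refine key v s u r hv0 hs0 hu0 hr0 ?_ ?_
    · rw [mul_comm (v : ℝ) s, mul_comm (u : ℝ) r]
      exact a4
    · rw [mul_comm (v : ℝ) u, mul_comm (s : ℝ) r]
      exact a3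
  rcases le_total r v with h | h
  · have h3 : (dst r v : ℝ) = (v : ℝ) - r := by
      have : dst r v + r = v := by
        unfold dst
        omega
      have h4 : ((dst r v : ℕ) : ℝ) + r = v := by exact_mod_cast this
      linarith
    rw [h3, max_eq_right h]
    linarith
  · have h3 : (dst r v : ℝ) = (r : ℝ) - v := by
      have : dst r v + v = r := by
        unfold dst
        omega
      have h4 : ((dst r v : ℕ) : ℝ) + v = r := by exact_mod_cast this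
      linarith
    rw [h3, max_eq_left h]
    linarith

private theorem weight64 (r s u v : ℕ) (hr : 1 ≤ r) (hs : 1 ≤ s) (hu : 1 ≤ u) (hv : 1 ≤ v) :
    1 / ((max (r * s) (u * v) : ℕ) : ℝ) * (1 / ((max (r * u) (s * v) : ℕ) : ℝ)) ≤
      1 / (((max r v : ℕ) : ℝ) * Real.sqrt ((r * v : ℕ) : ℝ)) *
        (1 / (((max s u : ℕ) : ℝ) * Real.sqrt ((s * u : ℕ) : ℝ))) := by
  set M1 : ℕ := max (r * s) (u * v) with hM1
  set M2 : ℕ := max (r * u) (s * v) with hM2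
  set m : ℕ := max r v * max s u with hm
  set N : ℕ := r * s * u * v with hN
  have hN0 : 0 < N := by positivity
  have h1 : Real.sqrt (N : ℝ) ≤ (M1 : ℝ) := by
    rw [Real.sqrt_le_left (by positivity)]
    have h3 : N ≤ M1 ^ 2 := by
      calc N = (r * s) * (u * v) := by rw [hN]; ring
        _ ≤ M1 * M1 := Nat.mul_le_mul (le_max_left _ _) (le_max_right _ _)
        _ = _ := by ring
    exact_mod_cast h3
  have h2 : Real.sqrt (N : ℝ) ≤ (M2 : ℝ) := by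
    rw [Real.sqrt_le_left (by positivity)]
    have h3 : N ≤ M2 ^ 2 := by
      calc N = (r * u) * (s * v) := by rw [hN]; ring
        _ ≤ M2 * M2 := Nat.mul_le_mul (le_max_left _ _) (le_max_right _ _)
        _ = _ := by ring
    exact_mod_cast h3
  have h3 : m ≤ M1 ∨ m ≤ M2 := by
    rcases le_total r v with a | a <;> rcases le_total s u with b | b
    · left
      rw [hm, max_eq_right a, max_eq_right b, hM1, mul_comm v u]
      exact le_max_right _ _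
    · right
      rw [hm, max_eq_right a, max_eq_left b, hM2, mul_comm v s]
      exact le_max_right _ _
    · right
      rw [hm, max_eq_left a, max_eq_right b, hM2]
      exact le_max_left _ _
    · left
      rw [hm, max_eq_left a, max_eq_left b, hM1]
      exact le_max_left _ _
  have hsN : 0 < Real.sqrt (N : ℝ) := Real.sqrt_pos.2 (by exact_mod_cast hN0)
  have hm0 : (0 : ℝ) < m := by
    have : 0 < m := Nat.mul_pos (lt_of_lt_of_le hr (le_max_left _ _)) (lt_of_lt_of_le hs (le_max_left _ _))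
    exact_mod_cast this
  have h4 : (m : ℝ) * Real.sqrt (N : ℝ) ≤ (M1 : ℝ) * M2 := by
    rcases h3 with h3 | h3
    · have : (m : ℝ) ≤ M1 := by exact_mod_cast h3
      exact mul_le_mul this h2 hsN.le (by positivity)
    · have : (m : ℝ) ≤ M2 := by exact_mod_cast h3
      rw [mul_comm (M1 : ℝ)]
      exact mul_le_mul this h1 hsN.le (by positivity)
  have h5 : Real.sqrt (N : ℝ) = Real.sqrt ((r * v : ℕ) : ℝ) * Real.sqrt ((s * u : ℕ) : ℝ) := by
    rw [← Real.sqrt_mul (by positivity)]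
    congr 1
    rw [hN]
    push_cast
    ring
  have h6 : 1 / (((max r v : ℕ) : ℝ) * Real.sqrt ((r * v : ℕ) : ℝ)) *
        (1 / (((max s u : ℕ) : ℝ) * Real.sqrt ((s * u : ℕ) : ℝ))) = 1 / ((m : ℝ) * Real.sqrt (N : ℝ)) := by
    rw [h5, hm, one_div_mul_one_div]
    congr 1
    push_cast
    ring
  rw [h6, one_div_mul_one_div]
  exact one_div_le_one_div_of_le (by positivity) h4

private theorem harm64 (B : ℕ) : ∑ l ∈ Icc 1 B, 1 / (l : ℝ) ≤ 1 + Real.log B := by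
  have h3 := harmonic_le_one_add_log B
  have h4 : ((harmonic B : ℚ) : ℝ) = ∑ k ∈ Icc 1 B, 1 / (k : ℝ) := by
    rw [harmonic_eq_sum_Icc]
    push_cast
    refine Finset.sum_congr rfl fun k _ => ?_
    rw [one_div]
  rwa [h4] at h3

/-- the diagonal sum -/
private theorem diag64 (q Y : ℕ) (τ : ℝ) (hq : 1 ≤ q) (hτ : 1 ≤ τ) :
    ∑ p ∈ ((Icc 1 Y) ×ˢ (Icc 1 Y)).filter (fun p => p.1 ≠ p.2),
      wq q τ p.1 p.2 * (1 / ((max p.1 p.2 : ℕ) : ℝ)) ≤ 2 * (LL Y * Xi q τ) := by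
  classical
  have hX := Xi_nonneg64' q τ hτ
  set f : ℕ × ℕ → ℝ := fun p => wq q τ p.1 p.2 * (1 / ((max p.1 p.2 : ℕ) : ℝ)) with hf
  have hf0 : ∀ p, 0 ≤ f p := fun p => mul_nonneg (wq_nonneg64' q τ hτ _ _) (by positivity)
  have hfs : ∀ p : ℕ × ℕ, f (p.2, p.1) = f p := by
    intro p
    show wq q τ p.2 p.1 * (1 / ((max p.2 p.1 : ℕ) : ℝ)) = wq q τ p.1 p.2 * (1 / ((max p.1 p.2 : ℕ) : ℝ))
    rw [wq_comm64', max_comm]
  have h1 : ∑ p ∈ ((Icc 1 Y) ×ˢ (Icc 1 Y)).filter (fun p => p.2 < p.1), f p ≤ LL Y * Xi q τ := by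
    rw [Finset.sum_filter, Finset.sum_product]
    have h2 : ∀ s ∈ Icc 1 Y, ∑ u ∈ Icc 1 Y, (if u < s then f (s, u) else 0) ≤ 1 / (s : ℝ) * Xi q τ := by
      intro s hs
      rw [Finset.mem_Icc] at hs
      have hs0 : (0 : ℝ) < s := by exact_mod_cast hs.1
      refine le_trans ?_ (mul_le_mul_of_nonneg_left (gsum q s τ hq hs.1 hτ) (by positivity))
      rw [Finset.mul_sum, ← Finset.sum_filter]
      refine sum_inj64 _ _ _ _ (fun u => s - u) ?_ ?_ ?_ ?_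
      · intro u hu
        rw [Finset.mem_filter, Finset.mem_Icc] at hu
        rw [Finset.mem_Icc]
        omega
      · intro u hu u' hu' h
        rw [Finset.mem_filter, Finset.mem_Icc] at hu hu'
        have h' : s - u = s - u' := h
        omega
      · intro u hu
        rw [Finset.mem_filter, Finset.mem_Icc] at hu
        have e1 : dst s u = s - u := by
          unfold dst
          omega
        have e2 : max s u = s := max_eq_left hu.2.le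
        show wq q τ s u * (1 / ((max s u : ℕ) : ℝ)) ≤ _
        unfold wq
        rw [e1, e2, mul_comm]
      · intro h _
        have : 0 ≤ τ := by linarith
        positivity
    refine (Finset.sum_le_sum h2).trans ?_
    rw [← Finset.sum_mul]
    exact mul_le_mul_of_nonneg_right (harm64 Y) hX
  have h2 : ∑ p ∈ ((Icc 1 Y) ×ˢ (Icc 1 Y)).filter (fun p => p.1 < p.2), f p ≤ LL Y * Xi q τ := by
    refine le_trans ?_ h1
    refine sum_inj64 _ _ _ _ (fun p => (p.2, p.1)) ?_ ?_ ?_ (fun p _ => hf0 p)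
    · intro p hp
      rw [Finset.mem_filter, Finset.mem_product] at hp ⊢
      exact ⟨⟨hp.1.2, hp.1.1⟩, hp.2⟩
    · rintro ⟨a, b⟩ _ ⟨c, d⟩ _ h
      simp only [Prod.mk.injEq] at h ⊢
      exact ⟨h.2, h.1⟩
    · intro p _
      exact (hfs p).ge
  rw [← Finset.sum_filter_add_sum_filter_not (((Icc 1 Y) ×ˢ (Icc 1 Y)).filter (fun p => p.1 ≠ p.2)) (fun p => p.2 < p.1)]
  have h3 : ∑ p ∈ (((Icc 1 Y) ×ˢ (Icc 1 Y)).filter (fun p => p.1 ≠ p.2)).filter (fun p => p.2 < p.1), f p ≤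
      ∑ p ∈ ((Icc 1 Y) ×ˢ (Icc 1 Y)).filter (fun p => p.2 < p.1), f p := by
    refine Finset.sum_le_sum_of_subset_of_nonneg ?_ fun p _ _ => hf0 p
    intro p hp
    rw [Finset.mem_filter, Finset.mem_filter] at hp
    rw [Finset.mem_filter]
    exact ⟨hp.1.1, hp.2⟩
  have h4 : ∑ p ∈ (((Icc 1 Y) ×ˢ (Icc 1 Y)).filter (fun p => p.1 ≠ p.2)).filter (fun p => ¬ p.2 < p.1), f p ≤
      ∑ p ∈ ((Icc 1 Y) ×ˢ (Icc 1 Y)).filter (fun p => p.1 < p.2), f p := by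
    refine Finset.sum_le_sum_of_subset_of_nonneg ?_ fun p _ _ => hf0 p
    intro p hp
    rw [Finset.mem_filter, Finset.mem_filter] at hp
    rw [Finset.mem_filter]
    exact ⟨hp.1.1, lt_of_le_of_ne (not_lt.1 hp.2) hp.1.2⟩
  linarith

/-- the set of `pair_sum` -/
private noncomputable def PS64 (g Y : ℕ) (κ : ℝ) : Finset (ℕ × ℕ) :=
  haveI := Classical.decPred (fun p : ℕ × ℕ => p.1 ≠ p.2 ∧ Nat.Coprime p.1 p.2 ∧
    (g : ℤ) ∣ (p.1 : ℤ) ^ 2 - (p.2 : ℤ) ^ 2 ∧ (dst p.1 p.2 : ℝ) ≤ κ * (max p.1 p.2 : ℕ))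
  ((Icc 1 Y) ×ˢ (Icc 1 Y)).filter (fun p => p.1 ≠ p.2 ∧ Nat.Coprime p.1 p.2 ∧
    (g : ℤ) ∣ (p.1 : ℤ) ^ 2 - (p.2 : ℤ) ^ 2 ∧ (dst p.1 p.2 : ℝ) ≤ κ * (max p.1 p.2 : ℕ))

/-- its weight -/
private noncomputable def om64 (p : ℕ × ℕ) : ℝ := 1 / (((max p.1 p.2 : ℕ) : ℝ) * Real.sqrt ((p.1 * p.2 : ℕ) : ℝ))

private theorem om_nonneg64 (p : ℕ × ℕ) : 0 ≤ om64 p := by
  unfold om64
  positivity

/-- the bound for `pair_sum` in our range -/
private theorem pair64 : ∃ C : ℝ, 0 < C ∧ ∀ (q g Y : ℕ) (τ : ℝ), 1 ≤ q → 1 ≤ Y → 1 ≤ τ → g ∣ q →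
    ((q * τ) ^ (-(1 / 10) : ℝ)) ^ 2 * q ≤ g →
    ∑ p ∈ PS64 g Y (1 / ((q * τ) ^ (-(1 / 10) : ℝ) * τ)), om64 p ≤
      C * (q.divisors.card : ℝ) * (LL Y * (q * τ) ^ (-(21 / 40) : ℝ)) := by
  classical
  obtain ⟨C, hC, hps⟩ := pair_sum
  refine ⟨4 * C, by linarith, fun q g Y τ hq hY hτ hgq hg => ?_⟩
  have hq0 : (0 : ℝ) < q := by exact_mod_cast hq
  have hτ0 : 0 < τ := by linarith
  set Q : ℝ := q * τ with hQ
  have hQ1 : 1 ≤ Q := by
    have : (1 : ℝ) ≤ q := by exact_mod_cast hq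
    nlinarith
  have hQ0 : 0 < Q := by linarith
  set η : ℝ := Q ^ (-(1 / 10) : ℝ) with hη
  have hη0 : 0 < η := Real.rpow_pos_of_pos hQ0 _
  have hg0 : 0 < g := Nat.pos_of_dvd_of_pos hgq hq
  have hg0' : (0 : ℝ) < g := by exact_mod_cast hg0
  have hκ0 : 0 < 1 / (η * τ) := by positivity
  have hL1 : 1 ≤ LL Y := by
    unfold LL
    have : 0 ≤ Real.log Y := Real.log_natCast_nonneg Y
    linarith
  have h1 : ∑ p ∈ PS64 g Y (1 / (η * τ)), om64 p ≤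
      C * (g.divisors.card : ℝ) * (if 1 / (η * τ) ≤ 1 / 2 then LL Y * (1 / (η * τ)) / g else (g : ℝ) ^ (-(3 / 4) : ℝ) + LL Y / g) := by
    have h2 := hps g Y (1 / (η * τ)) hg0 hY hκ0
    convert h2 using 1
    unfold PS64
    refine Finset.sum_congr ?_ fun p _ => rfl
    ext p
    simp only [Finset.mem_filter]
  have hdg : (g.divisors.card : ℝ) ≤ q.divisors.card := by
    exact_mod_cast Finset.card_le_card (Nat.divisors_subset_of_dvd (by omega) hgq)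
  have hd0 : (0 : ℝ) ≤ q.divisors.card := by positivity
  -- powers
  have hη3 : η ^ 3 = Q ^ (-(3 / 10) : ℝ) := by
    rw [hη, ← Real.rpow_natCast, ← Real.rpow_mul hQ0.le]
    norm_num
  have hp7 : Q ^ (-(3 / 10) : ℝ) * Q = Q ^ (7 / 10 : ℝ) := by
    nth_rw 2 [← Real.rpow_one Q]
    rw [← Real.rpow_add hQ0]
    norm_num
  have hmono : Q ^ (-(7 / 10) : ℝ) ≤ Q ^ (-(21 / 40) : ℝ) :=
    Real.rpow_le_rpow_of_exponent_le hQ1 (by norm_num)
  have hP : 0 < Q ^ (-(21 / 40) : ℝ) := Real.rpow_pos_of_pos hQ0 _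
  have hP7 : 0 < Q ^ (7 / 10 : ℝ) := Real.rpow_pos_of_pos hQ0 _
  have hinv : Q ^ (-(7 / 10) : ℝ) = 1 / Q ^ (7 / 10 : ℝ) := by
    rw [Real.rpow_neg hQ0.le, one_div]
  have hif : (if 1 / (η * τ) ≤ 1 / 2 then LL Y * (1 / (η * τ)) / g else (g : ℝ) ^ (-(3 / 4) : ℝ) + LL Y / g) ≤
      4 * (LL Y * Q ^ (-(21 / 40) : ℝ)) := by
    by_cases hk : 1 / (η * τ) ≤ 1 / 2
    · rw [if_pos hk]
      have h3 : (1 / (η * τ)) / g ≤ Q ^ (-(7 / 10) : ℝ) := by
        rw [hinv, div_div]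
        refine one_div_le_one_div_of_le hP7 ?_
        rw [← hp7, ← hη3, hQ]
        calc η ^ 3 * (q * τ) = (η * τ) * (η ^ 2 * q) := by ring
          _ ≤ (η * τ) * g := mul_le_mul_of_nonneg_left hg (by positivity)
      calc LL Y * (1 / (η * τ)) / g = LL Y * ((1 / (η * τ)) / g) := by ring
        _ ≤ LL Y * Q ^ (-(21 / 40) : ℝ) := mul_le_mul_of_nonneg_left (h3.trans hmono) (by linarith)
        _ ≤ 4 * (LL Y * Q ^ (-(21 / 40) : ℝ)) := by
            have : 0 ≤ LL Y * Q ^ (-(21 / 40) : ℝ) := by positivity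
            linarith
    · rw [if_neg hk]
      rw [not_le, div_lt_div_iff₀ (by norm_num) (by positivity)] at hk
      have hgl : Q ^ (7 / 10 : ℝ) / 2 ≤ g := by
        refine le_trans ?_ hg
        rw [← hp7, ← hη3, hQ]
        have h5 : η ^ 3 * (q * τ) / 2 = (η ^ 2 * q) * ((η * τ) / 2) := by ring
        rw [h5]
        have h6 : (η * τ) / 2 ≤ 1 := by linarith
        have h7 : 0 ≤ η ^ 2 * q := by positivity
        nlinarith
      have h8 : (g : ℝ) ^ (-(3 / 4) : ℝ) ≤ 2 * Q ^ (-(21 / 40) : ℝ) := by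
        have h9 : (g : ℝ) ^ (-(3 / 4) : ℝ) ≤ (Q ^ (7 / 10 : ℝ) / 2) ^ (-(3 / 4) : ℝ) :=
          Real.rpow_le_rpow_of_nonpos (by positivity) hgl (by norm_num)
        refine h9.trans ?_
        rw [Real.div_rpow hP7.le (by norm_num), ← Real.rpow_mul hQ0.le, Real.rpow_neg (by norm_num : (0:ℝ) ≤ 2), div_inv_eq_mul]
        have h10 : (7 / 10 : ℝ) * -(3 / 4) = -(21 / 40) := by norm_num
        rw [h10, mul_comm]
        refine mul_le_mul_of_nonneg_right ?_ hP.le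
        calc (2 : ℝ) ^ (3 / 4 : ℝ) ≤ 2 ^ (1 : ℝ) := Real.rpow_le_rpow_of_exponent_le (by norm_num) (by norm_num)
          _ = 2 := Real.rpow_one 2
      have h11 : LL Y / g ≤ 2 * (LL Y * Q ^ (-(21 / 40) : ℝ)) := by
        have h12 : 1 / (g : ℝ) ≤ 2 * Q ^ (-(7 / 10) : ℝ) := by
          rw [hinv]
          calc 1 / (g : ℝ) ≤ 1 / (Q ^ (7 / 10 : ℝ) / 2) := one_div_le_one_div_of_le (by positivity) hgl
            _ = _ := by rw [one_div_div]; ring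
        calc LL Y / g = LL Y * (1 / (g : ℝ)) := by ring
          _ ≤ LL Y * (2 * Q ^ (-(21 / 40) : ℝ)) := by
              refine mul_le_mul_of_nonneg_left (h12.trans ?_) (by linarith)
              linarith
          _ = _ := by ring
      have h13 : 2 * Q ^ (-(21 / 40) : ℝ) ≤ 2 * (LL Y * Q ^ (-(21 / 40) : ℝ)) := by nlinarith
      linarith
  refine h1.trans ?_
  have h14 : (0 : ℝ) ≤ 4 * (LL Y * Q ^ (-(21 / 40) : ℝ)) := by positivity
  calc C * (g.divisors.card : ℝ) * (if 1 / (η * τ) ≤ 1 / 2 then LL Y * (1 / (η * τ)) / g else (g : ℝ) ^ (-(3 / 4) : ℝ) + LL Y / g)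
      ≤ C * (g.divisors.card : ℝ) * (4 * (LL Y * Q ^ (-(21 / 40) : ℝ))) :=
        mul_le_mul_of_nonneg_left hif (by positivity)
    _ ≤ C * (q.divisors.card : ℝ) * (4 * (LL Y * Q ^ (-(21 / 40) : ℝ))) :=
        mul_le_mul_of_nonneg_right (mul_le_mul_of_nonneg_left hdg hC.le) h14
    _ = _ := by ring

private theorem mem_PS64 (g Y : ℕ) (κ : ℝ) (p : ℕ × ℕ) : p ∈ PS64 g Y κ ↔
    ((1 ≤ p.1 ∧ p.1 ≤ Y) ∧ (1 ≤ p.2 ∧ p.2 ≤ Y)) ∧ p.1 ≠ p.2 ∧ Nat.Coprime p.1 p.2 ∧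
    (g : ℤ) ∣ (p.1 : ℤ) ^ 2 - (p.2 : ℤ) ^ 2 ∧ (dst p.1 p.2 : ℝ) ≤ κ * (max p.1 p.2 : ℕ) := by
  classical
  unfold PS64
  simp only [Finset.mem_filter, Finset.mem_product, Finset.mem_Icc]

open Classical in
/-- the pointwise bound -/
private theorem point64 (q Y : ℕ) (τ η : ℝ) (hq : 1 ≤ q) (hτ : 1 ≤ τ) (hη : 0 < η) (r s u v : ℕ)
    (ht : (r, s, u, v) ∈ Qd Y) :
    wq q τ (r * s) (u * v) * wq q τ (r * u) (s * v) ≤
      η * (wq q τ (r * u) (s * v) * (1 / ((max (r * s) (u * v) : ℕ) : ℝ))) +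
      η * (wq q τ (r * s) (u * v) * (1 / ((max (r * u) (s * v) : ℕ) : ℝ))) +
      ((if r = v then wq q τ s u * (1 / ((max s u : ℕ) : ℝ)) else 0) +
        (if s = u then wq q τ r v * (1 / ((max r v : ℕ) : ℝ)) else 0)) +
      ∑ g ∈ q.divisors.filter (fun g : ℕ => η ^ 2 * q ≤ (g : ℝ)),
        (if (r, v) ∈ PS64 g Y (1 / (η * τ)) ∧ (s, u) ∈ PS64 g Y (1 / (η * τ)) then om64 (r, v) * om64 (s, u) else 0) := by
  have hm := ht
  simp only [Qd, Finset.mem_filter, Finset.mem_product, Finset.mem_Icc] at hm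
  obtain ⟨⟨h1, h2, h3, h4⟩, c1, c2, c3, c4, c5, c6, c7, c8⟩ := hm
  have hq0 : (0 : ℝ) < q := by exact_mod_cast hq
  have w1 := wq_nonneg64' q τ hτ (r * s) (u * v)
  have w2 := wq_nonneg64' q τ hτ (r * u) (s * v)
  have w3 := wq_nonneg64' q τ hτ s u
  have w4 := wq_nonneg64' q τ hτ r v
  have i1 : (0 : ℝ) ≤ 1 / ((max (r * s) (u * v) : ℕ) : ℝ) := by positivity
  have i2 : (0 : ℝ) ≤ 1 / ((max (r * u) (s * v) : ℕ) : ℝ) := by positivity
  have A1 : 0 ≤ η * (wq q τ (r * u) (s * v) * (1 / ((max (r * s) (u * v) : ℕ) : ℝ))) := by positivity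
  have A2 : 0 ≤ η * (wq q τ (r * s) (u * v) * (1 / ((max (r * u) (s * v) : ℕ) : ℝ))) := by positivity
  have B1 : 0 ≤ (if r = v then wq q τ s u * (1 / ((max s u : ℕ) : ℝ)) else 0) := by
    split_ifs
    · positivity
    · exact le_rfl
  have B2 : 0 ≤ (if s = u then wq q τ r v * (1 / ((max r v : ℕ) : ℝ)) else 0) := by
    split_ifs
    · positivity
    · exact le_rfl
  have hC : ∀ g ∈ q.divisors.filter (fun g : ℕ => η ^ 2 * q ≤ (g : ℝ)), (0 : ℝ) ≤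
      (if (r, v) ∈ PS64 g Y (1 / (η * τ)) ∧ (s, u) ∈ PS64 g Y (1 / (η * τ)) then om64 (r, v) * om64 (s, u) else 0) := by
    intro g _
    split_ifs
    · exact mul_nonneg (om_nonneg64 _) (om_nonneg64 _)
    · exact le_rfl
  have hCs := Finset.sum_nonneg hC
  rcases alt64 q τ η hq hτ hη (r * s) (u * v) (Nat.mul_pos h1.1 h2.1) c7 with e1 | ⟨e1, e1'⟩
  · have : wq q τ (r * s) (u * v) * wq q τ (r * u) (s * v) ≤
        η * (1 / ((max (r * s) (u * v) : ℕ) : ℝ)) * wq q τ (r * u) (s * v) := mul_le_mul_of_nonneg_right e1 w2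
    have h5 : η * (1 / ((max (r * s) (u * v) : ℕ) : ℝ)) * wq q τ (r * u) (s * v) =
        η * (wq q τ (r * u) (s * v) * (1 / ((max (r * s) (u * v) : ℕ) : ℝ))) := by ring
    linarith
  rcases alt64 q τ η hq hτ hη (r * u) (s * v) (Nat.mul_pos h1.1 h3.1) c8 with e2 | ⟨e2, e2'⟩
  · have : wq q τ (r * s) (u * v) * wq q τ (r * u) (s * v) ≤
        wq q τ (r * s) (u * v) * (η * (1 / ((max (r * u) (s * v) : ℕ) : ℝ))) := mul_le_mul_of_nonneg_left e2 w1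
    have h5 : wq q τ (r * s) (u * v) * (η * (1 / ((max (r * u) (s * v) : ℕ) : ℝ))) =
        η * (wq q τ (r * s) (u * v) * (1 / ((max (r * u) (s * v) : ℕ) : ℝ))) := by ring
    linarith
  by_cases hrv : r = v
  · have hr1 : r = 1 := by
      rw [← hrv] at c3
      exact (Nat.coprime_self r).1 c3
    rw [if_pos hrv]
    subst hrv
    subst hr1
    have h5 : wq q τ (1 * u) (s * 1) ≤ 1 / ((max s u : ℕ) : ℝ) := by
      rw [one_mul, mul_one, max_comm]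
      exact wq_le_inv64 q τ hq u s
    have h6 : wq q τ (1 * s) (u * 1) = wq q τ s u := by rw [one_mul, mul_one]
    have h7 : wq q τ (1 * s) (u * 1) * wq q τ (1 * u) (s * 1) ≤ wq q τ s u * (1 / ((max s u : ℕ) : ℝ)) := by
      rw [h6]
      exact mul_le_mul_of_nonneg_left h5 w3
    linarith
  by_cases hsu : s = u
  · have hs1 : s = 1 := by
      rw [← hsu] at c4
      exact (Nat.coprime_self s).1 c4
    rw [if_pos hsu]
    subst hsu
    subst hs1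
    have h5 : wq q τ (r * 1) (1 * v) ≤ 1 / ((max r v : ℕ) : ℝ) := by
      rw [one_mul, mul_one]
      exact wq_le_inv64 q τ hq r v
    have h6 : wq q τ (r * 1) (1 * v) = wq q τ r v := by rw [one_mul, mul_one]
    have h7 : wq q τ (r * 1) (1 * v) * wq q τ (r * 1) (1 * v) ≤ wq q τ r v * (1 / ((max r v : ℕ) : ℝ)) := by
      nth_rewrite 1 [h6]
      exact mul_le_mul_of_nonneg_left h5 w4
    linarith
  -- both large
  set d1 := Nat.gcd q (dst (r * s) (u * v)) with hd1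
  set d2 := Nat.gcd q (dst (r * u) (s * v)) with hd2
  set g := Nat.gcd d1 d2 with hg
  have hd1q : d1 ∣ q := Nat.gcd_dvd_left _ _
  have hd2q : d2 ∣ q := Nat.gcd_dvd_left _ _
  have hgq : g ∣ q := (Nat.gcd_dvd_left _ _).trans hd1q
  have hg1 : g ∣ dst (r * s) (u * v) := (Nat.gcd_dvd_left _ _).trans (Nat.gcd_dvd_right _ _)
  have hg2 : g ∣ dst (r * u) (s * v) := (Nat.gcd_dvd_right _ _).trans (Nat.gcd_dvd_right _ _)
  have hgl : η ^ 2 * q ≤ (g : ℝ) := by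
    have h5 : g * Nat.lcm d1 d2 = d1 * d2 := Nat.gcd_mul_lcm d1 d2
    have h6 : Nat.lcm d1 d2 ≤ q := Nat.le_of_dvd hq (Nat.lcm_dvd hd1q hd2q)
    have h7 : d1 * d2 ≤ g * q := by
      rw [← h5]
      exact Nat.mul_le_mul_left g h6
    have h8 : (d1 : ℝ) * d2 ≤ g * q := by exact_mod_cast h7
    have h9 : (η * q) * (η * q) ≤ (d1 : ℝ) * d2 := mul_le_mul e1 e2 (by positivity) (by positivity)
    have h10 : (η ^ 2 * q) * q ≤ g * q := by nlinarith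
    exact le_of_mul_le_mul_right h10 hq0
  have hgm : g ∈ q.divisors.filter (fun g : ℕ => η ^ 2 * q ≤ (g : ℝ)) := by
    rw [Finset.mem_filter, Nat.mem_divisors]
    exact ⟨⟨hgq, by omega⟩, hgl⟩
  have hκ0 : 0 ≤ 1 / (η * τ) := by positivity
  obtain ⟨v1, v2⟩ := div64 hg1 hg2 c2 c3 c4 c5
  have k1 := close64 r s u v h1.1 h2.1 h3.1 h4.1 (1 / (η * τ)) hκ0 e1' e2'
  have k2 : (dst s u : ℝ) ≤ 1 / (η * τ) * ((max s u : ℕ) : ℝ) := by
    refine close64 s r v u h2.1 h1.1 h4.1 h3.1 (1 / (η * τ)) hκ0 ?_ ?_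
    · rw [mul_comm s r, mul_comm v u]
      exact e1'
    · rw [dst_comm64, max_comm]
      exact e2'
  have m1 : (r, v) ∈ PS64 g Y (1 / (η * τ)) := (mem_PS64 _ _ _ _).2 ⟨⟨h1, h4⟩, hrv, c3, v1, k1⟩
  have m2 : (s, u) ∈ PS64 g Y (1 / (η * τ)) := (mem_PS64 _ _ _ _).2 ⟨⟨h2, h3⟩, hsu, c4, v2, k2⟩
  have hsingle := Finset.single_le_sum hC hgm
  rw [if_pos ⟨m1, m2⟩] at hsingle
  have hlast : wq q τ (r * s) (u * v) * wq q τ (r * u) (s * v) ≤ om64 (r, v) * om64 (s, u) := by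
    refine le_trans ?_ (weight64 r s u v h1.1 h2.1 h3.1 h4.1)
    exact mul_le_mul (wq_le_inv64 q τ hq _ _) (wq_le_inv64 q τ hq _ _) w2 i1
  linarith

theorem quad_sum2 : ∃ C : ℝ, 0 < C ∧ ∀ (q Y : ℕ) (τ : ℝ), 1 ≤ q → 1 ≤ Y → 1 ≤ τ →
    ∑ t ∈ Qd Y, wq q τ (t.1 * t.2.1) (t.2.2.1 * t.2.2.2) * wq q τ (t.1 * t.2.2.1) (t.2.1 * t.2.2.2) ≤
      C * (q.divisors.card : ℝ) ^ 3 * (4 + Real.log τ) *
        (LL Y ^ 2 * (q * τ) ^ (-(21 / 20) : ℝ) + LL Y / (q * τ)) := by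
  classical
  obtain ⟨C1, hC1, ht1⟩ := t1_sum
  obtain ⟨C2, hC2, hp⟩ := pair64
  refine ⟨2 * C1 + 4 + C2 ^ 2, by positivity, fun q Y τ hq hY hτ => ?_⟩
  have hq0 : (0 : ℝ) < q := by exact_mod_cast hq
  have hτ0 : 0 < τ := by linarith
  set Q : ℝ := q * τ with hQ
  have hQ1 : 1 ≤ Q := by
    have : (1 : ℝ) ≤ q := by exact_mod_cast hq
    nlinarith
  have hQ0 : 0 < Q := by linarith
  set η : ℝ := Q ^ (-(1 / 10) : ℝ) with hη
  have hη0 : 0 < η := Real.rpow_pos_of_pos hQ0 _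
  have hX := Xi_nonneg64' q τ hτ
  have hL1 : 1 ≤ LL Y := by
    unfold LL
    have : 0 ≤ Real.log Y := Real.log_natCast_nonneg Y
    linarith
  set d : ℝ := (q.divisors.card : ℝ) with hd
  have hd1 : 1 ≤ d := by
    have : 1 ≤ q.divisors.card := Finset.card_pos.2 ⟨1, Nat.one_mem_divisors.2 (by omega)⟩
    rw [hd]
    exact_mod_cast this
  set T : ℝ := 4 + Real.log τ with hT
  have hT1 : 1 ≤ T := by
    have := Real.log_nonneg hτ
    rw [hT]
    linarith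
  -- the five sums
  set fA : ℕ × ℕ × ℕ × ℕ → ℝ := fun t => η * (wq q τ (t.1 * t.2.2.1) (t.2.1 * t.2.2.2) * (1 / ((max (t.1 * t.2.1) (t.2.2.1 * t.2.2.2) : ℕ) : ℝ))) with hfA
  set fB : ℕ × ℕ × ℕ × ℕ → ℝ := fun t => η * (wq q τ (t.1 * t.2.1) (t.2.2.1 * t.2.2.2) * (1 / ((max (t.1 * t.2.2.1) (t.2.1 * t.2.2.2) : ℕ) : ℝ))) with hfB
  set fC : ℕ × ℕ × ℕ × ℕ → ℝ := fun t => (if t.1 = t.2.2.2 then wq q τ t.2.1 t.2.2.1 * (1 / ((max t.2.1 t.2.2.1 : ℕ) : ℝ)) else 0) with hfC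
  set fD : ℕ × ℕ × ℕ × ℕ → ℝ := fun t => (if t.2.1 = t.2.2.1 then wq q τ t.1 t.2.2.2 * (1 / ((max t.1 t.2.2.2 : ℕ) : ℝ)) else 0) with hfD
  set fE : ℕ → ℕ × ℕ × ℕ × ℕ → ℝ := fun g t => (if (t.1, t.2.2.2) ∈ PS64 g Y (1 / (η * τ)) ∧ (t.2.1, t.2.2.1) ∈ PS64 g Y (1 / (η * τ)) then
    om64 (t.1, t.2.2.2) * om64 (t.2.1, t.2.2.1) else 0) with hfE
  have hpt : ∀ t ∈ Qd Y, wq q τ (t.1 * t.2.1) (t.2.2.1 * t.2.2.2) * wq q τ (t.1 * t.2.2.1) (t.2.1 * t.2.2.2) ≤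
      fA t + fB t + (fC t + fD t) + ∑ g ∈ q.divisors.filter (fun g : ℕ => η ^ 2 * q ≤ (g : ℝ)), fE g t := by
    rintro ⟨r, s, u, v⟩ ht
    exact point64 q Y τ η hq hτ hη0 r s u v ht
  have hsum := Finset.sum_le_sum hpt
  rw [Finset.sum_add_distrib, Finset.sum_add_distrib, Finset.sum_add_distrib, Finset.sum_add_distrib, Finset.sum_comm] at hsum
  have sB : ∑ t ∈ Qd Y, fB t ≤ η * (C1 * LL Y ^ 2 * Xi q τ) := by
    rw [hfB, ← Finset.mul_sum]
    exact mul_le_mul_of_nonneg_left (ht1 q Y τ hq hY hτ) hη0.le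
  have sA : ∑ t ∈ Qd Y, fA t ≤ η * (C1 * LL Y ^ 2 * Xi q τ) := by
    refine le_trans ?_ sB
    refine sum_inj64 _ _ _ _ (fun t => (t.1, t.2.2.1, t.2.1, t.2.2.2)) ?_ ?_ ?_ ?_
    · rintro ⟨r, s, u, v⟩ ht
      simp only [Qd, Finset.mem_filter, Finset.mem_product] at ht ⊢
      obtain ⟨⟨h1, h2, h3, h4⟩, c1, c2, c3, c4, c5, c6, c7, c8⟩ := ht
      exact ⟨⟨h1, h3, h2, h4⟩, c2, c1, c3, c4.symm, c6, c5, c8, c7⟩
    · rintro ⟨r, s, u, v⟩ _ ⟨r', s', u', v'⟩ _ h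
      simp only [Prod.mk.injEq] at h ⊢
      exact ⟨h.1, h.2.2.1, h.2.1, h.2.2.2⟩
    · intro t _
      exact le_rfl
    · intro t _
      have := wq_nonneg64' q τ hτ (t.1 * t.2.1) (t.2.2.1 * t.2.2.2)
      rw [hfB]
      positivity
  have hdiag := diag64 q Y τ hq hτ
  have hdn : ∀ p : ℕ × ℕ, 0 ≤ wq q τ p.1 p.2 * (1 / ((max p.1 p.2 : ℕ) : ℝ)) := fun p =>
    mul_nonneg (wq_nonneg64' q τ hτ _ _) (by positivity)
  have sC : ∑ t ∈ Qd Y, fC t ≤ 2 * (LL Y * Xi q τ) := by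
    rw [hfC, ← Finset.sum_filter]
    refine le_trans ?_ hdiag
    refine sum_inj64 _ _ _ _ (fun t => (t.2.1, t.2.2.1)) ?_ ?_ (fun t _ => le_rfl) (fun p _ => hdn p)
    · rintro ⟨r, s, u, v⟩ ht
      simp only [Qd, Finset.mem_filter, Finset.mem_product] at ht ⊢
      obtain ⟨⟨⟨h1, h2, h3, h4⟩, c1, c2, c3, c4, c5, c6, c7, c8⟩, e⟩ := ht
      refine ⟨⟨h2, h3⟩, ?_⟩
      rintro rfl
      subst e
      exact c7 (mul_comm _ _)
    · rintro ⟨r, s, u, v⟩ ht ⟨r', s', u', v'⟩ ht' h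
      simp only [Qd, Finset.mem_filter, Finset.mem_product] at ht ht'
      simp only [Prod.mk.injEq] at h ⊢
      obtain ⟨⟨_, c1, c2, c3, c4, c5, c6, c7, c8⟩, e⟩ := ht
      obtain ⟨⟨_, c1', c2', c3', c4', c5', c6', c7', c8'⟩, e'⟩ := ht'
      subst e
      subst e'
      have a1 := (Nat.coprime_self r).1 c3
      have a2 := (Nat.coprime_self r').1 c3'
      exact ⟨a1.trans a2.symm, h.1, h.2, a1.trans a2.symm⟩
  have sD : ∑ t ∈ Qd Y, fD t ≤ 2 * (LL Y * Xi q τ) := by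
    rw [hfD, ← Finset.sum_filter]
    refine le_trans ?_ hdiag
    refine sum_inj64 _ _ _ _ (fun t => (t.1, t.2.2.2)) ?_ ?_ (fun t _ => le_rfl) (fun p _ => hdn p)
    · rintro ⟨r, s, u, v⟩ ht
      simp only [Qd, Finset.mem_filter, Finset.mem_product] at ht ⊢
      obtain ⟨⟨⟨h1, h2, h3, h4⟩, c1, c2, c3, c4, c5, c6, c7, c8⟩, e⟩ := ht
      refine ⟨⟨h1, h4⟩, ?_⟩
      rintro rfl
      subst e
      exact c7 (mul_comm _ _)
    · rintro ⟨r, s, u, v⟩ ht ⟨r', s', u', v'⟩ ht' h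
      simp only [Qd, Finset.mem_filter, Finset.mem_product] at ht ht'
      simp only [Prod.mk.injEq] at h ⊢
      obtain ⟨⟨_, c1, c2, c3, c4, c5, c6, c7, c8⟩, e⟩ := ht
      obtain ⟨⟨_, c1', c2', c3', c4', c5', c6', c7', c8'⟩, e'⟩ := ht'
      subst e
      subst e'
      have a1 := (Nat.coprime_self s).1 c4
      have a2 := (Nat.coprime_self s').1 c4'
      exact ⟨h.1, a1.trans a2.symm, a1.trans a2.symm, h.2⟩
  set K : ℝ := C2 * d * (LL Y * Q ^ (-(21 / 40) : ℝ)) with hK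
  have hP : 0 < Q ^ (-(21 / 40) : ℝ) := Real.rpow_pos_of_pos hQ0 _
  have hK0 : 0 ≤ K := by positivity
  have sE : ∀ g ∈ q.divisors.filter (fun g : ℕ => η ^ 2 * q ≤ (g : ℝ)), ∑ t ∈ Qd Y, fE g t ≤ K ^ 2 := by
    intro g hg
    rw [Finset.mem_filter, Nat.mem_divisors] at hg
    have hp' := hp q g Y τ hq hY hτ hg.1.1 hg.2
    have h5 : ∑ t ∈ Qd Y, fE g t ≤ ∑ z ∈ (PS64 g Y (1 / (η * τ))) ×ˢ (PS64 g Y (1 / (η * τ))), om64 z.1 * om64 z.2 := by
      rw [hfE, ← Finset.sum_filter]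
      refine sum_inj64 _ _ _ _ (fun t => ((t.1, t.2.2.2), (t.2.1, t.2.2.1))) ?_ ?_ (fun t _ => le_rfl)
        (fun z _ => mul_nonneg (om_nonneg64 _) (om_nonneg64 _))
      · intro t ht
        rw [Finset.mem_filter] at ht
        rw [Finset.mem_product]
        exact ht.2
      · rintro ⟨r, s, u, v⟩ _ ⟨r', s', u', v'⟩ _ h
        simp only [Prod.mk.injEq] at h ⊢
        exact ⟨h.1.1, h.2.1, h.2.2, h.1.2⟩
    refine h5.trans ?_
    rw [Finset.sum_product, ← Finset.sum_mul_sum, ← sq]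
    exact pow_le_pow_left₀ (Finset.sum_nonneg fun p _ => om_nonneg64 p) hp' 2
  have sE' : ∑ g ∈ q.divisors.filter (fun g : ℕ => η ^ 2 * q ≤ (g : ℝ)), ∑ t ∈ Qd Y, fE g t ≤ d * K ^ 2 := by
    refine (Finset.sum_le_sum sE).trans ?_
    rw [Finset.sum_const, nsmul_eq_mul]
    refine mul_le_mul_of_nonneg_right ?_ (by positivity)
    rw [hd]
    exact_mod_cast Finset.card_filter_le _ _
  -- powers of `Q`
  have hXi : Xi q τ = d * T / Q := rfl
  have p1 : η / Q ≤ Q ^ (-(21 / 20) : ℝ) := by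
    have : η / Q = Q ^ (-(11 / 10) : ℝ) := by
      rw [hη]
      nth_rewrite 2 [← Real.rpow_one Q]
      rw [← Real.rpow_sub hQ0]
      norm_num
    rw [this]
    exact Real.rpow_le_rpow_of_exponent_le hQ1 (by norm_num)
  have p2 : (Q ^ (-(21 / 40) : ℝ)) ^ 2 = Q ^ (-(21 / 20) : ℝ) := by
    rw [← Real.rpow_natCast, ← Real.rpow_mul hQ0.le]
    norm_num
  set W : ℝ := Q ^ (-(21 / 20) : ℝ) with hW
  have hW0 : 0 < W := Real.rpow_pos_of_pos hQ0 _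
  have hd3 : d ≤ d ^ 3 := by nlinarith [sq_nonneg d, mul_self_nonneg (d - 1)]
  have hd30 : 0 < d ^ 3 := by positivity
  have b1 : η * (C1 * LL Y ^ 2 * Xi q τ) ≤ C1 * (d ^ 3 * T * (LL Y ^ 2 * W)) := by
    rw [hXi]
    calc η * (C1 * LL Y ^ 2 * (d * T / Q)) = C1 * (d * T * (LL Y ^ 2 * (η / Q))) := by ring
      _ ≤ C1 * (d ^ 3 * T * (LL Y ^ 2 * W)) := by
          refine mul_le_mul_of_nonneg_left ?_ hC1.le
          refine mul_le_mul (mul_le_mul_of_nonneg_right hd3 (by linarith)) (mul_le_mul_of_nonneg_left p1 (by positivity))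
            (by positivity) (by positivity)
  have b2 : 2 * (LL Y * Xi q τ) ≤ 2 * (d ^ 3 * T * (LL Y / Q)) := by
    rw [hXi]
    calc 2 * (LL Y * (d * T / Q)) = 2 * (d * T * (LL Y / Q)) := by ring
      _ ≤ 2 * (d ^ 3 * T * (LL Y / Q)) := by
          refine mul_le_mul_of_nonneg_left ?_ (by norm_num)
          exact mul_le_mul_of_nonneg_right (mul_le_mul_of_nonneg_right hd3 (by linarith)) (by positivity)
  have b3 : d * K ^ 2 ≤ C2 ^ 2 * (d ^ 3 * T * (LL Y ^ 2 * W)) := by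
    calc d * K ^ 2 = C2 ^ 2 * (d ^ 3 * 1 * (LL Y ^ 2 * (Q ^ (-(21 / 40) : ℝ)) ^ 2)) := by rw [hK]; ring
      _ ≤ C2 ^ 2 * (d ^ 3 * T * (LL Y ^ 2 * W)) := by
          rw [p2]
          refine mul_le_mul_of_nonneg_left ?_ (by positivity)
          exact mul_le_mul_of_nonneg_right (mul_le_mul_of_nonneg_left hT1 hd30.le) (by positivity)
  have hu : 0 ≤ d ^ 3 * T * (LL Y ^ 2 * W) := by positivity
  have hv : 0 ≤ d ^ 3 * T * (LL Y / Q) := by positivity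
  have hfin : (2 * C1 + 4 + C2 ^ 2) * d ^ 3 * T * (LL Y ^ 2 * W + LL Y / Q) =
      (2 * C1 + 4 + C2 ^ 2) * (d ^ 3 * T * (LL Y ^ 2 * W)) + (2 * C1 + 4 + C2 ^ 2) * (d ^ 3 * T * (LL Y / Q)) := by ring
  rw [hfin]
  have e1 : 0 ≤ (4 : ℝ) * (d ^ 3 * T * (LL Y ^ 2 * W)) := by positivity
  have e2 : 0 ≤ (2 * C1 + C2 ^ 2) * (d ^ 3 * T * (LL Y / Q)) := by positivity
  have e3 : (2 * C1 + 4 + C2 ^ 2) * (d ^ 3 * T * (LL Y ^ 2 * W)) = 2 * (C1 * (d ^ 3 * T * (LL Y ^ 2 * W))) +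
      4 * (d ^ 3 * T * (LL Y ^ 2 * W)) + C2 ^ 2 * (d ^ 3 * T * (LL Y ^ 2 * W)) := by ring
  have e4 : (2 * C1 + 4 + C2 ^ 2) * (d ^ 3 * T * (LL Y / Q)) = (2 * C1 + C2 ^ 2) * (d ^ 3 * T * (LL Y / Q)) +
      4 * (d ^ 3 * T * (LL Y / Q)) := by ring
  rw [e3, e4]
  linarith

end Pool.Agent.Helper51.EA
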