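import Pool.Agent.Helper5.RS.Var

/-!
# Project EA, block C4: the variance of `VQ`, from the sharper quadruple sum
-/

set_option autoImplicit false

namespace Pool.Agent.Helper51.EA

open Finset Pool.Agent.Helper5.RM Pool.Agent.Helper5.RS

private lemma Sm_mem64 (z Y : ℕ) : ∀ n ∈ Sm z Y, 1 ≤ n ∧ n ≤ Y ∧ Squarefree n := by
  intro n hn
  unfold Sm at hn
  rw [Finset.mem_filter, Finset.mem_Icc] at hn
  exact ⟨hn.1.1, hn.1.2, hn.2.1⟩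

private lemma wq_nonneg64 (q : ℕ) (τ : ℝ) (hτ : 1 ≤ τ) (a b : ℕ) : 0 ≤ wq q τ a b := by
  unfold wq
  have h0 : 0 ≤ τ := by linarith
  refine mul_nonneg (by positivity) (le_min (by positivity) (by positivity))

/-- C4, from the statement of `quad_sum2` (C3). -/
theorem var_VQ2_of (hq2 : ∃ C : ℝ, 0 < C ∧ ∀ (q Y : ℕ) (τ : ℝ), 1 ≤ q → 1 ≤ Y → 1 ≤ τ →
    ∑ t ∈ Qd Y, wq q τ (t.1 * t.2.1) (t.2.2.1 * t.2.2.2) * wq q τ (t.1 * t.2.2.1) (t.2.1 * t.2.2.2) ≤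
      C * (q.divisors.card : ℝ) ^ 3 * (4 + Real.log τ) *
        (LL Y ^ 2 * (q * τ) ^ (-(21 / 20) : ℝ) + LL Y / (q * τ))) :
    ∃ C : ℝ, 0 < C ∧ ∀ (S : Finset ℕ) (z Y R q : ℕ) (j : ℤ) (ρ : ℕ), PP Y ⊆ S → 1 ≤ q → 1 ≤ Y →
    1 ≤ R → ρ ≤ R → 2 * |(j : ℝ)| * Y ≤ R →
    av S (fun T => (VQ z Y R q j ρ T - mQ z Y R ρ) ^ 2) ≤
      C * (q.divisors.card : ℝ) ^ 9 * LL Y ^ 2 * (4 + Real.log (tj j)) *
        (LL Y ^ 2 * (q * tj j) ^ (-(21 / 20) : ℝ) + LL Y / (q * tj j)) := by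
  classical
  obtain ⟨C0, hC0p, hCC⟩ := hq2
  refine ⟨C0, hC0p, ?_⟩
  intro S z Y R q j ρ hS hq hY hR hρ hjR
  have hτ : 1 ≤ tj j := le_max_left _ _
  have hSm := Sm_mem64 z Y
  have hLL : 0 ≤ LL Y := by
    unfold LL
    have : 0 ≤ Real.log (Y : ℝ) := Real.log_nonneg (by exact_mod_cast hY)
    linarith
  set C : ℝ := (q.divisors.card : ℝ) ^ 2 * (q.divisors.card : ℝ) * LL Y with hC
  have hC0 : 0 ≤ C := by positivity
  have hΦ : ∀ p ∈ cp Y, ‖Psi (Sm z Y) Y (kap R q j ρ) p.1 p.2‖ ≤ C * wq q (tj j) p.1 p.2 := by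
    intro p hp
    unfold cp at hp
    rw [Finset.mem_filter, Finset.mem_product, Finset.mem_Icc, Finset.mem_Icc] at hp
    refine Psi_le (Sm z Y) Y q (tj j) ((q.divisors.card : ℝ) ^ 2) (kap R q j ρ) hq hY hτ (by positivity) ?_
      p.1 p.2 hp.1.1.1 hp.1.2.1 hp.2.1
    intro m hm n hn hmn
    exact kap_le Y R q j ρ m n hq hR hρ hjR (hSm m hm).1 (hSm m hm).2.1 (hSm n hn).1 (hSm n hn).2.1 hmn
  have h1 : ∀ T, (VQ z Y R q j ρ T - mQ z Y R ρ) ^ 2 =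
      ‖∑ p ∈ cp Y, (rf T p.1 : ℂ) * (rf T p.2 : ℂ) *
        (fun p : ℕ × ℕ => Psi (Sm z Y) Y (kap R q j ρ) p.1 p.2) p‖ ^ 2 := by
    intro T
    simp only
    rw [← regroup Y (Sm z Y) hSm (kap R q j ρ) T, ← VQ_expand z Y R q j ρ T hq hR hρ, Complex.norm_real,
      Real.norm_eq_abs, sq_abs]
  calc av S (fun T => (VQ z Y R q j ρ T - mQ z Y R ρ) ^ 2)
      = av S (fun T => ‖∑ p ∈ cp Y, (rf T p.1 : ℂ) * (rf T p.2 : ℂ) *
        (fun p : ℕ × ℕ => Psi (Sm z Y) Y (kap R q j ρ) p.1 p.2) p‖ ^ 2) := av_congr fun T _ => h1 T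
    _ ≤ ∑ p ∈ cp Y, ∑ p' ∈ (cp Y).filter (fun p' => p'.1 * p'.2 = p.1 * p.2),
          ‖Psi (Sm z Y) Y (kap R q j ρ) p.1 p.2‖ * ‖Psi (Sm z Y) Y (kap R q j ρ) p'.1 p'.2‖ :=
        pair_second S Y hS (fun p : ℕ × ℕ => Psi (Sm z Y) Y (kap R q j ρ) p.1 p.2)
    _ ≤ ∑ p ∈ cp Y, ∑ p' ∈ (cp Y).filter (fun p' => p'.1 * p'.2 = p.1 * p.2),
          C ^ 2 * (wq q (tj j) p.1 p.2 * wq q (tj j) p'.1 p'.2) := by
        refine Finset.sum_le_sum fun p hp => Finset.sum_le_sum fun p' hp' => ?_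
        have hp'' : p' ∈ cp Y := (Finset.mem_filter.1 hp').1
        calc ‖Psi (Sm z Y) Y (kap R q j ρ) p.1 p.2‖ * ‖Psi (Sm z Y) Y (kap R q j ρ) p'.1 p'.2‖
            ≤ (C * wq q (tj j) p.1 p.2) * (C * wq q (tj j) p'.1 p'.2) :=
              mul_le_mul (hΦ p hp) (hΦ p' hp'') (norm_nonneg _)
                (mul_nonneg hC0 (wq_nonneg64 q _ hτ _ _))
          _ = C ^ 2 * (wq q (tj j) p.1 p.2 * wq q (tj j) p'.1 p'.2) := by ring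
    _ = C ^ 2 * ∑ p ∈ cp Y, ∑ p' ∈ (cp Y).filter (fun p' => p'.1 * p'.2 = p.1 * p.2),
          wq q (tj j) p.1 p.2 * wq q (tj j) p'.1 p'.2 := by
        simp only [Finset.mul_sum]
    _ ≤ C ^ 2 * ∑ t ∈ Qd Y, wq q (tj j) (t.1 * t.2.1) (t.2.2.1 * t.2.2.2) *
          wq q (tj j) (t.1 * t.2.2.1) (t.2.1 * t.2.2.2) :=
        mul_le_mul_of_nonneg_left (pairs_le_quad Y (fun a b => wq q (tj j) a b)
          (fun a b => wq_nonneg64 q _ hτ a b)) (by positivity)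
    _ ≤ C ^ 2 * (C0 * (q.divisors.card : ℝ) ^ 3 * (4 + Real.log (tj j)) *
        (LL Y ^ 2 * (q * tj j) ^ (-(21 / 20) : ℝ) + LL Y / (q * tj j))) :=
        mul_le_mul_of_nonneg_left (hCC q Y (tj j) hq hY hτ) (by positivity)
    _ = C0 * (q.divisors.card : ℝ) ^ 9 * LL Y ^ 2 * (4 + Real.log (tj j)) *
        (LL Y ^ 2 * (q * tj j) ^ (-(21 / 20) : ℝ) + LL Y / (q * tj j)) := by rw [hC]; ring

end Pool.Agent.Helper51.EA
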