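import Pool.Agent.Helper5.RS.Qsum

/-!
# Block EA-C1: the sum of `wq (r s, u v) / max (r u, s v)` over the quadruples

By `r ↔ v, s ↔ u` we may assume `u v < r s`. Range `v ≤ r`, `u ≤ s`: as in `quad_sum` (`case1`, `case2`). Range `r < v` (so `u < s`, `max (r u) (s v) = s v`) and its image `s < u`: for `s` and `v` in
dyadic ranges `[S, 2S)`, `[V, 2V)` and fixed coprime `r`, `u` by `cell` at most `(1 + V/r) Xi / (S V) ≤ 3 Xi / (r S)`; `u V < 2 r S` and `r < 2 V`: the sum over `u` and `r` is at most `12 Xi`.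
-/

set_option autoImplicit false

namespace Pool.Agent.Helper51.EA

open Finset Pool.Agent.Helper5.RM Pool.Agent.Helper5.RS

private theorem dbl64 {T : Type} [DecidableEq T] (S : Finset T) (F : T → ℝ) (hF : ∀ t, 0 ≤ F t) (e : T → T)
    (he : ∀ t, e (e t) = t) (hS : ∀ t ∈ S, e t ∈ S) (hFe : ∀ t, F (e t) = F t)
    (P : T → Prop) [DecidablePred P] (hP : ∀ t ∈ S, P t ∨ P (e t)) :
    ∑ t ∈ S, F t ≤ 2 * ∑ t ∈ S.filter P, F t := by
  have h1 : ∑ t ∈ S.filter (fun t => P (e t)), F t = ∑ t ∈ S.filter P, F t := by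
    refine Finset.sum_nbij' e e ?_ ?_ ?_ ?_ ?_
    · intro t ht
      rw [Finset.mem_filter] at ht ⊢
      exact ⟨hS t ht.1, ht.2⟩
    · intro t ht
      rw [Finset.mem_filter] at ht ⊢
      exact ⟨hS t ht.1, by rw [he]; exact ht.2⟩
    · intro t _
      exact he t
    · intro t _
      exact he t
    · intro t _
      exact (hFe t).symm
  have h2 : ∑ t ∈ S, F t ≤ ∑ t ∈ S.filter P, F t + ∑ t ∈ S.filter (fun t => P (e t)), F t := by
    rw [← Finset.sum_filter_add_sum_filter_not S P]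
    refine add_le_add le_rfl ?_
    refine Finset.sum_le_sum_of_subset_of_nonneg ?_ fun t _ _ => hF t
    intro t ht
    rw [Finset.mem_filter] at ht ⊢
    exact ⟨ht.1, (hP t ht.1).resolve_left ht.2⟩
  rw [h1] at h2
  linarith

private theorem wq_comm64 (q : ℕ) (τ : ℝ) (a b : ℕ) : wq q τ a b = wq q τ b a := by
  unfold wq
  have h1 : dst a b = dst b a := by
    unfold dst
    omega
  rw [h1, max_comm]

private theorem wq_nonneg64 (q : ℕ) (τ : ℝ) (hτ : 1 ≤ τ) (a b : ℕ) : 0 ≤ wq q τ a b := by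
  unfold wq
  refine mul_nonneg (by positivity) (le_min (by positivity) ?_)
  have : 0 ≤ τ := by linarith
  positivity

private theorem g4_nonneg64 (q : ℕ) (τ : ℝ) (hτ : 1 ≤ τ) (r s u v : ℕ) : 0 ≤ g4 q τ r s u v := by
  unfold g4
  refine div_nonneg (mul_nonneg (by positivity) (le_min (by positivity) ?_)) (Real.sqrt_nonneg _)
  have : 0 ≤ τ := by linarith
  positivity

private theorem g4_comm64 (q : ℕ) (τ : ℝ) (r s u v : ℕ) : g4 q τ r s u v = g4 q τ r s v u := by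
  unfold g4
  rw [mul_comm u v, mul_right_comm (r * s) u v]

private theorem Xi_nonneg64 (q : ℕ) (τ : ℝ) (hτ : 1 ≤ τ) : 0 ≤ Xi q τ := by
  unfold Xi
  have h1 : 0 ≤ Real.log τ := Real.log_nonneg hτ
  have h2 : 0 ≤ τ := by linarith
  positivity

private theorem inv_le64 (r s u v : ℕ) (hr : 1 ≤ r) (hs : 1 ≤ s) (hu : 1 ≤ u) (hv : 1 ≤ v) :
    1 / ((max (r * u) (s * v) : ℕ) : ℝ) ≤ 1 / Real.sqrt ((r * s * u * v : ℕ) : ℝ) := by
  have hpos : (0 : ℝ) < ((r * s * u * v : ℕ) : ℝ) := by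
    have : 0 < r * s * u * v := by positivity
    exact_mod_cast this
  have h2 : Real.sqrt ((r * s * u * v : ℕ) : ℝ) ≤ ((max (r * u) (s * v) : ℕ) : ℝ) := by
    rw [Real.sqrt_le_left (by positivity)]
    have h3 : r * s * u * v ≤ max (r * u) (s * v) ^ 2 := by
      calc r * s * u * v = (r * u) * (s * v) := by ring
        _ ≤ max (r * u) (s * v) * max (r * u) (s * v) :=
          Nat.mul_le_mul (le_max_left _ _) (le_max_right _ _)
        _ = _ := by ring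
    exact_mod_cast h3
  exact one_div_le_one_div_of_le (Real.sqrt_pos.2 hpos) h2

private theorem wq_eq64 (q : ℕ) (τ : ℝ) (r s u v : ℕ) (h : u * v < r * s) :
    wq q τ (r * s) (u * v) = (Nat.gcd q (r * s - u * v) : ℝ) / q *
      min (1 / ((r * s : ℕ) : ℝ)) (1 / (τ * ((r * s - u * v : ℕ) : ℝ))) := by
  unfold wq
  have h2 : dst (r * s) (u * v) = r * s - u * v := by
    unfold dst
    omega
  rw [h2, max_eq_left h.le]

private theorem F_le64 (q : ℕ) (τ : ℝ) (hτ : 1 ≤ τ) (r s u v : ℕ) (hr : 1 ≤ r) (hs : 1 ≤ s) (hu : 1 ≤ u)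
    (hv : 1 ≤ v) (h : u * v < r * s) :
    wq q τ (r * s) (u * v) * (1 / ((max (r * u) (s * v) : ℕ) : ℝ)) ≤ g4 q τ r s u v := by
  have h3 := inv_le64 r s u v hr hs hu hv
  have h4 := wq_nonneg64 q τ hτ (r * s) (u * v)
  refine (mul_le_mul_of_nonneg_left h3 h4).trans (le_of_eq ?_)
  rw [wq_eq64 q τ r s u v h]
  unfold g4
  rw [mul_one_div]

private theorem dyad64 (Y : ℕ) (F : ℕ → ℝ) (hF : ∀ s, 0 ≤ F s) :
    ∑ s ∈ Finset.Icc 1 Y, F s ≤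
      ∑ a ∈ Finset.range (Nat.log 2 Y + 1), ∑ s ∈ Finset.Ico (2 ^ a) (2 * 2 ^ a), F s := by
  have h1 : ∀ n : ℕ, ∑ a ∈ Finset.range n, ∑ s ∈ Finset.Ico (2 ^ a) (2 * 2 ^ a), F s =
      ∑ s ∈ Finset.Ico 1 (2 ^ n), F s := by
    intro n
    induction n with
    | zero => simp
    | succ n ih =>
      rw [Finset.sum_range_succ, ih, show 2 * 2 ^ n = 2 ^ (n + 1) by ring]
      exact Finset.sum_Ico_consecutive F (Nat.one_le_two_pow) (Nat.pow_le_pow_right (by norm_num) (by omega))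
  rw [h1]
  refine Finset.sum_le_sum_of_subset_of_nonneg ?_ fun s _ _ => hF s
  intro s hs
  rw [Finset.mem_Icc] at hs
  rw [Finset.mem_Ico]
  exact ⟨hs.1, lt_of_le_of_lt hs.2 (Nat.lt_pow_succ_log_self (by norm_num) Y)⟩

private theorem nlog64 (Y : ℕ) (hY : 1 ≤ Y) : ((Nat.log 2 Y + 1 : ℕ) : ℝ) ≤ 2 * LL Y := by
  have h1 : (2 : ℝ) ^ (Nat.log 2 Y) ≤ Y := by
    exact_mod_cast Nat.pow_log_le_self 2 (by omega)
  have hYp : (0 : ℝ) < Y := by exact_mod_cast hY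
  have h2 : (Nat.log 2 Y : ℝ) * Real.log 2 ≤ Real.log Y := by
    have := Real.log_le_log (by positivity) h1
    rwa [Real.log_pow] at this
  have h3 : (1 : ℝ) / 2 ≤ Real.log 2 := by
    have := Real.log_two_gt_d9
    linarith
  have h4 : (0 : ℝ) ≤ (Nat.log 2 Y : ℝ) := by positivity
  unfold LL
  push_cast
  nlinarith

/-- the arithmetic part -/
private noncomputable def G64 (q : ℕ) (τ : ℝ) (r s u v : ℕ) : ℝ :=
  (Nat.gcd q (r * s - u * v) : ℝ) / q *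
    min (1 / ((r * s : ℕ) : ℝ)) (1 / (τ * ((r * s - u * v : ℕ) : ℝ)))

private theorem G64_nonneg (q : ℕ) (τ : ℝ) (hτ : 1 ≤ τ) (r s u v : ℕ) : 0 ≤ G64 q τ r s u v := by
  unfold G64
  refine mul_nonneg (by positivity) (le_min (by positivity) ?_)
  have : 0 ≤ τ := by linarith
  positivity

/-- the summand of the range `r < v` -/
private noncomputable def f64 (q : ℕ) (τ : ℝ) (r s u v : ℕ) : ℝ :=
  if Nat.Coprime r u ∧ r < v ∧ u * v < r * s then G64 q τ r s u v * (1 / ((s : ℝ) * v)) else 0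

private theorem f64_nonneg (q : ℕ) (τ : ℝ) (hτ : 1 ≤ τ) (r s u v : ℕ) : 0 ≤ f64 q τ r s u v := by
  unfold f64
  split_ifs
  · exact mul_nonneg (G64_nonneg q τ hτ r s u v) (by positivity)
  · exact le_rfl

/-- one cell -/
private theorem cell64 (q r u a b : ℕ) (τ : ℝ) (hq : 1 ≤ q) (hr : 1 ≤ r) (hu : 1 ≤ u) (hτ : 1 ≤ τ) :
    ∑ s ∈ Finset.Ico (2 ^ a) (2 * 2 ^ a), ∑ v ∈ Finset.Ico (2 ^ b) (2 * 2 ^ b), f64 q τ r s u v ≤
      (if r < 2 * 2 ^ b ∧ u * 2 ^ b < 2 * r * 2 ^ a then 3 * Xi q τ / ((r : ℝ) * 2 ^ a) else 0) := by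
  have hX := Xi_nonneg64 q τ hτ
  have hr0 : (0 : ℝ) < r := by exact_mod_cast hr
  by_cases h : Nat.Coprime r u ∧ r < 2 * 2 ^ b ∧ u * 2 ^ b < 2 * r * 2 ^ a
  · obtain ⟨hc, h1, h2⟩ := h
    rw [if_pos ⟨h1, h2⟩]
    have hA : (0 : ℝ) < 2 ^ a := by positivity
    have hB : (0 : ℝ) < 2 ^ b := by positivity
    have hterm : ∀ s ∈ Finset.Ico (2 ^ a) (2 * 2 ^ a), ∑ v ∈ Finset.Ico (2 ^ b) (2 * 2 ^ b), f64 q τ r s u v ≤
        (∑ v ∈ (Finset.Ico (2 ^ b) (2 * 2 ^ b)).filter (fun v => v * u < r * s),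
          (Nat.gcd q (r * s - v * u) : ℝ) / q *
            min (1 / ((r * s : ℕ) : ℝ)) (1 / (τ * ((r * s - v * u : ℕ) : ℝ)))) * (1 / ((2 : ℝ) ^ a * 2 ^ b)) := by
      intro s hs
      rw [Finset.sum_mul, Finset.sum_filter]
      refine Finset.sum_le_sum fun v hv => ?_
      rw [Finset.mem_Ico] at hs hv
      have hG := G64_nonneg q τ hτ r s u v
      have e1 : (Nat.gcd q (r * s - v * u) : ℝ) / q *
            min (1 / ((r * s : ℕ) : ℝ)) (1 / (τ * ((r * s - v * u : ℕ) : ℝ))) = G64 q τ r s u v := by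
        unfold G64
        rw [mul_comm v u]
      rw [e1]
      unfold f64
      by_cases hh : Nat.Coprime r u ∧ r < v ∧ u * v < r * s
      · rw [if_pos hh, if_pos (by rw [mul_comm]; exact hh.2.2)]
        refine mul_le_mul_of_nonneg_left ?_ hG
        refine one_div_le_one_div_of_le (by positivity) ?_
        have g1 : ((2 : ℝ) ^ a) ≤ s := by exact_mod_cast hs.1
        have g2 : ((2 : ℝ) ^ b) ≤ v := by exact_mod_cast hv.1
        exact mul_le_mul g1 g2 hB.le (by positivity)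
      · rw [if_neg hh]
        split_ifs
        · exact mul_nonneg hG (by positivity)
        · exact le_rfl
    refine (Finset.sum_le_sum hterm).trans ?_
    rw [← Finset.sum_mul]
    have hcell := cell q r u (2 ^ a) (2 ^ b) τ hq hr hu hc Nat.one_le_two_pow Nat.one_le_two_pow hτ
    have h3 : (1 : ℝ) ≤ 2 * 2 ^ b / r := by
      rw [le_div_iff₀ hr0]
      have : (r : ℝ) < 2 * 2 ^ b := by exact_mod_cast h1
      linarith
    calc _ ≤ ((1 + ((2 ^ b : ℕ) : ℝ) / r) * Xi q τ) * (1 / ((2 : ℝ) ^ a * 2 ^ b)) :=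
          mul_le_mul_of_nonneg_right hcell (by positivity)
      _ ≤ ((3 * 2 ^ b / r) * Xi q τ) * (1 / ((2 : ℝ) ^ a * 2 ^ b)) := by
          refine mul_le_mul_of_nonneg_right (mul_le_mul_of_nonneg_right ?_ hX) (by positivity)
          push_cast
          have e : (3 : ℝ) * 2 ^ b / r = 2 * 2 ^ b / r + 2 ^ b / r := by ring
          rw [e]
          linarith
      _ = 3 * Xi q τ / ((r : ℝ) * 2 ^ a) := by
          field_simp
  · have hz : ∑ s ∈ Finset.Ico (2 ^ a) (2 * 2 ^ a), ∑ v ∈ Finset.Ico (2 ^ b) (2 * 2 ^ b), f64 q τ r s u v = 0 := by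
      refine Finset.sum_eq_zero fun s hs => Finset.sum_eq_zero fun v hv => ?_
      rw [Finset.mem_Ico] at hs hv
      unfold f64
      rw [if_neg]
      rintro ⟨g1, g2, g3⟩
      refine h ⟨g1, by omega, ?_⟩
      calc u * 2 ^ b ≤ u * v := Nat.mul_le_mul_left u hv.1
        _ < r * s := g3
        _ ≤ r * (2 * 2 ^ a) := Nat.mul_le_mul_left r hs.2.le
        _ = 2 * r * 2 ^ a := by ring
    rw [hz]
    split_ifs
    · positivity
    · exact le_rfl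

private theorem reg64 (q Y : ℕ) (τ : ℝ) (hq : 1 ≤ q) (hY : 1 ≤ Y) (hτ : 1 ≤ τ) :
    ∑ t ∈ ((Finset.Icc 1 Y) ×ˢ (Finset.Icc 1 Y) ×ˢ (Finset.Icc 1 Y) ×ˢ (Finset.Icc 1 Y)).filter
      (fun t => Nat.Coprime t.1 t.2.2.1 ∧ t.1 < t.2.2.2 ∧ t.2.2.1 * t.2.2.2 < t.1 * t.2.1),
      G64 q τ t.1 t.2.1 t.2.2.1 t.2.2.2 * (1 / ((t.2.1 : ℝ) * t.2.2.2)) ≤ 48 * LL Y ^ 2 * Xi q τ := by
  have hX := Xi_nonneg64 q τ hτ
  set A : ℕ := Nat.log 2 Y with hA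
  have hf0 := f64_nonneg q τ hτ
  -- step 1
  have hs1 : ∑ t ∈ ((Finset.Icc 1 Y) ×ˢ (Finset.Icc 1 Y) ×ˢ (Finset.Icc 1 Y) ×ˢ (Finset.Icc 1 Y)).filter
      (fun t => Nat.Coprime t.1 t.2.2.1 ∧ t.1 < t.2.2.2 ∧ t.2.2.1 * t.2.2.2 < t.1 * t.2.1),
      G64 q τ t.1 t.2.1 t.2.2.1 t.2.2.2 * (1 / ((t.2.1 : ℝ) * t.2.2.2)) =
      ∑ r ∈ Finset.Icc 1 Y, ∑ u ∈ Finset.Icc 1 Y, ∑ s ∈ Finset.Icc 1 Y, ∑ v ∈ Finset.Icc 1 Y, f64 q τ r s u v := by
    rw [Finset.sum_filter, Finset.sum_product]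
    refine Finset.sum_congr rfl fun r _ => ?_
    rw [Finset.sum_product]
    have h1 : ∀ s ∈ Finset.Icc 1 Y, ∑ y ∈ Finset.Icc 1 Y ×ˢ Finset.Icc 1 Y,
        (if Nat.Coprime r y.1 ∧ r < y.2 ∧ y.1 * y.2 < r * s then
          G64 q τ r s y.1 y.2 * (1 / ((s : ℝ) * y.2)) else 0) =
          ∑ u ∈ Finset.Icc 1 Y, ∑ v ∈ Finset.Icc 1 Y, f64 q τ r s u v := by
      intro s _
      rw [Finset.sum_product]
      rfl
    calc _ = ∑ s ∈ Finset.Icc 1 Y, ∑ u ∈ Finset.Icc 1 Y, ∑ v ∈ Finset.Icc 1 Y, f64 q τ r s u v :=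
          Finset.sum_congr rfl fun s hs => h1 s hs
      _ = _ := Finset.sum_comm
  rw [hs1]
  -- step 2
  set K : ℕ → ℕ → ℕ → ℕ → ℝ := fun r u a b =>
    (if r < 2 * 2 ^ b ∧ u * 2 ^ b < 2 * r * 2 ^ a then 3 * Xi q τ / ((r : ℝ) * 2 ^ a) else 0) with hK
  have hs2 : ∀ r ∈ Finset.Icc 1 Y, ∀ u ∈ Finset.Icc 1 Y,
      ∑ s ∈ Finset.Icc 1 Y, ∑ v ∈ Finset.Icc 1 Y, f64 q τ r s u v ≤
      ∑ a ∈ Finset.range (A + 1), ∑ b ∈ Finset.range (A + 1), K r u a b := by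
    intro r hr u hu
    rw [Finset.mem_Icc] at hr hu
    calc ∑ s ∈ Finset.Icc 1 Y, ∑ v ∈ Finset.Icc 1 Y, f64 q τ r s u v
        ≤ ∑ a ∈ Finset.range (A + 1), ∑ s ∈ Finset.Ico (2 ^ a) (2 * 2 ^ a), ∑ v ∈ Finset.Icc 1 Y, f64 q τ r s u v :=
          dyad64 Y _ fun s => Finset.sum_nonneg fun v _ => hf0 r s u v
      _ ≤ ∑ a ∈ Finset.range (A + 1), ∑ s ∈ Finset.Ico (2 ^ a) (2 * 2 ^ a),
            ∑ b ∈ Finset.range (A + 1), ∑ v ∈ Finset.Ico (2 ^ b) (2 * 2 ^ b), f64 q τ r s u v :=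
          Finset.sum_le_sum fun a _ => Finset.sum_le_sum fun s _ => dyad64 Y _ fun v => hf0 r s u v
      _ = ∑ a ∈ Finset.range (A + 1), ∑ b ∈ Finset.range (A + 1),
            ∑ s ∈ Finset.Ico (2 ^ a) (2 * 2 ^ a), ∑ v ∈ Finset.Ico (2 ^ b) (2 * 2 ^ b), f64 q τ r s u v :=
          Finset.sum_congr rfl fun a _ => Finset.sum_comm
      _ ≤ _ := Finset.sum_le_sum fun a _ => Finset.sum_le_sum fun b _ => cell64 q r u a b τ hq hr.1 hu.1 hτ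
  have hs3 : ∑ r ∈ Finset.Icc 1 Y, ∑ u ∈ Finset.Icc 1 Y, ∑ s ∈ Finset.Icc 1 Y, ∑ v ∈ Finset.Icc 1 Y,
        f64 q τ r s u v ≤
      ∑ a ∈ Finset.range (A + 1), ∑ b ∈ Finset.range (A + 1),
        ∑ r ∈ Finset.Icc 1 Y, ∑ u ∈ Finset.Icc 1 Y, K r u a b := by
    refine (Finset.sum_le_sum fun r hr => Finset.sum_le_sum fun u hu => hs2 r hr u hu).trans (le_of_eq ?_)
    calc ∑ r ∈ Finset.Icc 1 Y, ∑ v ∈ Finset.Icc 1 Y,
          ∑ a ∈ Finset.range (A + 1), ∑ b ∈ Finset.range (A + 1), K r v a b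
        = ∑ r ∈ Finset.Icc 1 Y, ∑ a ∈ Finset.range (A + 1), ∑ v ∈ Finset.Icc 1 Y,
            ∑ b ∈ Finset.range (A + 1), K r v a b := Finset.sum_congr rfl fun r _ => Finset.sum_comm
      _ = ∑ a ∈ Finset.range (A + 1), ∑ r ∈ Finset.Icc 1 Y, ∑ v ∈ Finset.Icc 1 Y,
            ∑ b ∈ Finset.range (A + 1), K r v a b := Finset.sum_comm
      _ = ∑ a ∈ Finset.range (A + 1), ∑ r ∈ Finset.Icc 1 Y, ∑ b ∈ Finset.range (A + 1),
            ∑ v ∈ Finset.Icc 1 Y, K r v a b :=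
          Finset.sum_congr rfl fun a _ => Finset.sum_congr rfl fun r _ => Finset.sum_comm
      _ = _ := Finset.sum_congr rfl fun a _ => Finset.sum_comm
  refine hs3.trans ?_
  -- step 3: the sum over `r`, `u`
  have hs4 : ∀ a ∈ Finset.range (A + 1), ∀ b ∈ Finset.range (A + 1),
      ∑ r ∈ Finset.Icc 1 Y, ∑ u ∈ Finset.Icc 1 Y, K r u a b ≤ 12 * Xi q τ := by
    intro a _ b _
    have hA0 : (0 : ℝ) < 2 ^ a := by positivity
    have hB0 : (0 : ℝ) < 2 ^ b := by positivity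
    have hu1 : ∀ r ∈ Finset.Icc 1 Y, ∑ u ∈ Finset.Icc 1 Y, K r u a b ≤
        if r < 2 * 2 ^ b then 6 * Xi q τ / 2 ^ b else 0 := by
      intro r hr
      rw [Finset.mem_Icc] at hr
      have hr0 : (0 : ℝ) < r := by exact_mod_cast hr.1
      by_cases hrb : r < 2 * 2 ^ b
      swap
      · rw [if_neg hrb]
        refine le_of_eq (Finset.sum_eq_zero fun u _ => ?_)
        rw [hK]
        simp only
        rw [if_neg]
        exact fun h => hrb h.1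
      rw [if_pos hrb]
      have h1 : ∑ u ∈ Finset.Icc 1 Y, K r u a b =
          ((Finset.Icc 1 Y).filter (fun u => u * 2 ^ b < 2 * r * 2 ^ a)).card * (3 * Xi q τ / ((r : ℝ) * 2 ^ a)) := by
        rw [← nsmul_eq_mul, ← Finset.sum_const, Finset.sum_filter]
        refine Finset.sum_congr rfl fun u _ => ?_
        rw [hK]
        simp only [hrb, true_and]
      have h2 : ((Finset.Icc 1 Y).filter (fun u => u * 2 ^ b < 2 * r * 2 ^ a)).card ≤ 2 * r * 2 ^ a / 2 ^ b := by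
        have h3 : (Finset.Icc 1 Y).filter (fun u => u * 2 ^ b < 2 * r * 2 ^ a) ⊆ Finset.Icc 1 (2 * r * 2 ^ a / 2 ^ b) := by
          intro u hu
          rw [Finset.mem_filter, Finset.mem_Icc] at hu
          rw [Finset.mem_Icc]
          exact ⟨hu.1.1, (Nat.le_div_iff_mul_le (by positivity)).2 hu.2.le⟩
        have h4 := Finset.card_le_card h3
        rwa [Nat.card_Icc, Nat.add_sub_cancel] at h4
      have h5 : (((Finset.Icc 1 Y).filter (fun u => u * 2 ^ b < 2 * r * 2 ^ a)).card : ℝ) ≤ 2 * r * 2 ^ a / 2 ^ b := by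
        calc (((Finset.Icc 1 Y).filter (fun u => u * 2 ^ b < 2 * r * 2 ^ a)).card : ℝ)
            ≤ ((2 * r * 2 ^ a / 2 ^ b : ℕ) : ℝ) := by exact_mod_cast h2
          _ ≤ ((2 * r * 2 ^ a : ℕ) : ℝ) / ((2 ^ b : ℕ) : ℝ) := Nat.cast_div_le
          _ = _ := by push_cast; ring
      rw [h1]
      calc _ ≤ (2 * r * 2 ^ a / 2 ^ b : ℝ) * (3 * Xi q τ / ((r : ℝ) * 2 ^ a)) :=
            mul_le_mul_of_nonneg_right h5 (by positivity)
        _ = 6 * Xi q τ / 2 ^ b := by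
            field_simp
            ring
    refine (Finset.sum_le_sum hu1).trans ?_
    rw [← Finset.sum_filter, Finset.sum_const, nsmul_eq_mul]
    have h6 : ((Finset.Icc 1 Y).filter (fun r => r < 2 * 2 ^ b)).card ≤ 2 * 2 ^ b := by
      have h7 : (Finset.Icc 1 Y).filter (fun r => r < 2 * 2 ^ b) ⊆ Finset.Icc 1 (2 * 2 ^ b) := by
        intro r hr
        rw [Finset.mem_filter, Finset.mem_Icc] at hr
        rw [Finset.mem_Icc]
        exact ⟨hr.1.1, hr.2.le⟩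
      have h8 := Finset.card_le_card h7
      rwa [Nat.card_Icc, Nat.add_sub_cancel] at h8
    have h9 : (((Finset.Icc 1 Y).filter (fun r => r < 2 * 2 ^ b)).card : ℝ) ≤ 2 * 2 ^ b := by exact_mod_cast h6
    calc _ ≤ (2 * 2 ^ b : ℝ) * (6 * Xi q τ / 2 ^ b) := mul_le_mul_of_nonneg_right h9 (by positivity)
      _ = 12 * Xi q τ := by
          field_simp
          ring
  have hs5 := Finset.sum_le_sum fun a ha => Finset.sum_le_sum fun b hb => hs4 a ha b hb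
  refine hs5.trans ?_
  rw [Finset.sum_const, Finset.sum_const, Finset.card_range, nsmul_eq_mul, nsmul_eq_mul]
  have h10 := nlog64 Y hY
  rw [← hA] at h10
  have h11 : (0 : ℝ) ≤ ((A + 1 : ℕ) : ℝ) := by positivity
  calc ((A + 1 : ℕ) : ℝ) * (((A + 1 : ℕ) : ℝ) * (12 * Xi q τ)) = (((A + 1 : ℕ) : ℝ) * ((A + 1 : ℕ) : ℝ)) * (12 * Xi q τ) := by ring
    _ ≤ ((2 * LL Y) * (2 * LL Y)) * (12 * Xi q τ) :=
        mul_le_mul_of_nonneg_right (mul_self_le_mul_self h11 h10) (by positivity)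
    _ = _ := by ring

theorem t1_sum : ∃ C : ℝ, 0 < C ∧ ∀ (q Y : ℕ) (τ : ℝ), 1 ≤ q → 1 ≤ Y → 1 ≤ τ →
    ∑ t ∈ Qd Y, wq q τ (t.1 * t.2.1) (t.2.2.1 * t.2.2.2) *
      (1 / ((max (t.1 * t.2.2.1) (t.2.1 * t.2.2.2) : ℕ) : ℝ)) ≤ C * LL Y ^ 2 * Xi q τ := by
  classical
  refine ⟨2592, by norm_num, ?_⟩
  intro q Y τ hq hY hτ
  set F : ℕ × ℕ × ℕ × ℕ → ℝ := fun t =>
    wq q τ (t.1 * t.2.1) (t.2.2.1 * t.2.2.2) * (1 / ((max (t.1 * t.2.2.1) (t.2.1 * t.2.2.2) : ℕ) : ℝ)) with hFdef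
  set G : ℕ × ℕ × ℕ × ℕ → ℝ := fun t => g4 q τ t.1 t.2.1 t.2.2.1 t.2.2.2 with hGdef
  have hF0 : ∀ t, 0 ≤ F t := fun t => mul_nonneg (wq_nonneg64 q τ hτ _ _) (by positivity)
  have hG0 : ∀ t, 0 ≤ G t := fun t => g4_nonneg64 q τ hτ _ _ _ _
  have hFe : ∀ t : ℕ × ℕ × ℕ × ℕ, F (t.2.1, t.1, t.2.2.2, t.2.2.1) = F t := by
    rintro ⟨r, s, u, v⟩
    show wq q τ (s * r) (v * u) * (1 / ((max (s * v) (r * u) : ℕ) : ℝ)) =
      wq q τ (r * s) (u * v) * (1 / ((max (r * u) (s * v) : ℕ) : ℝ))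
    rw [max_comm (s * v), mul_comm s r, mul_comm v u]
  -- first symmetry
  have s1 : ∑ t ∈ Qd Y, F t ≤ 2 * ∑ t ∈ (Qd Y).filter (fun t => t.2.2.1 * t.2.2.2 ≤ t.1 * t.2.1), F t := by
    refine dbl64 _ F hF0 (fun t => (t.2.2.2, t.2.2.1, t.2.1, t.1)) (fun t => rfl) ?_ ?_ _ ?_
    · rintro ⟨r, s, u, v⟩ ht
      simp only [Qd, Finset.mem_filter, Finset.mem_product] at ht ⊢
      obtain ⟨⟨h1, h2, h3, h4⟩, c1, c2, c3, c4, c5, c6, c7, c8⟩ := ht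
      refine ⟨⟨h4, h3, h2, h1⟩, c6.symm, c5.symm, c3.symm, c4.symm, c2.symm, c1.symm, ?_, ?_⟩
      · intro h
        apply c7
        rw [mul_comm r s, mul_comm u v]
        exact h.symm
      · intro h
        apply c8
        rw [mul_comm r u, mul_comm s v]
        exact h.symm
    · rintro ⟨r, s, u, v⟩
      show wq q τ (v * u) (s * r) * (1 / ((max (v * s) (u * r) : ℕ) : ℝ)) =
        wq q τ (r * s) (u * v) * (1 / ((max (r * u) (s * v) : ℕ) : ℝ))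
      rw [wq_comm64 q τ (v * u), mul_comm v u, mul_comm s r, mul_comm v s, mul_comm u r, max_comm (s * v)]
    · rintro ⟨r, s, u, v⟩ _
      show u * v ≤ r * s ∨ s * r ≤ v * u
      rw [mul_comm s r, mul_comm v u]
      exact le_total _ _
  set R0 := (Qd Y).filter (fun t => t.2.2.1 * t.2.2.2 ≤ t.1 * t.2.1) with hR0
  have hR0m : ∀ t ∈ R0, ((1 ≤ t.1 ∧ t.1 ≤ Y) ∧ (1 ≤ t.2.1 ∧ t.2.1 ≤ Y) ∧ (1 ≤ t.2.2.1 ∧ t.2.2.1 ≤ Y) ∧ (1 ≤ t.2.2.2 ∧ t.2.2.2 ≤ Y)) ∧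
      Nat.Coprime t.1 t.2.2.1 ∧ Nat.Coprime t.1 t.2.2.2 ∧ t.2.2.1 * t.2.2.2 < t.1 * t.2.1 := by
    intro t ht
    rw [hR0] at ht
    simp only [Qd, Finset.mem_filter, Finset.mem_product, Finset.mem_Icc] at ht
    obtain ⟨⟨h1, c1, c2, c3, c4, c5, c6, c7, c8⟩, d1⟩ := ht
    exact ⟨h1, c2, c3, lt_of_le_of_ne d1 (Ne.symm c7)⟩
  have hR0e : ∀ t ∈ R0, (t.2.1, t.1, t.2.2.2, t.2.2.1) ∈ R0 := by
    rintro ⟨r, s, u, v⟩ ht
    rw [hR0] at ht ⊢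
    simp only [Qd, Finset.mem_filter, Finset.mem_product] at ht ⊢
    obtain ⟨⟨⟨h1, h2, h3, h4⟩, c1, c2, c3, c4, c5, c6, c7, c8⟩, d1⟩ := ht
    refine ⟨⟨⟨h2, h1, h4, h3⟩, c1.symm, c5, c4, c3, c2, c6.symm, ?_, ?_⟩, ?_⟩
    · intro h
      apply c7
      rw [mul_comm r s, mul_comm u v]
      exact h
    · intro h
      exact c8 h.symm
    · rw [mul_comm v u, mul_comm s r]
      exact d1
  -- the three ranges
  have s2 : ∑ t ∈ R0, F t ≤ ∑ t ∈ R0.filter (fun t => t.2.2.2 ≤ t.1 ∧ t.2.2.1 ≤ t.2.1), F t +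
      (∑ t ∈ R0.filter (fun t => t.1 < t.2.2.2), F t + ∑ t ∈ R0.filter (fun t => t.2.1 < t.2.2.1), F t) := by
    rw [← Finset.sum_filter_add_sum_filter_not R0 (fun t => t.2.2.2 ≤ t.1 ∧ t.2.2.1 ≤ t.2.1)]
    refine add_le_add le_rfl ?_
    rw [← Finset.sum_filter_add_sum_filter_not (R0.filter (fun t => ¬ (t.2.2.2 ≤ t.1 ∧ t.2.2.1 ≤ t.2.1))) (fun t => t.1 < t.2.2.2)]
    refine add_le_add ?_ ?_
    · refine Finset.sum_le_sum_of_subset_of_nonneg ?_ fun t _ _ => hF0 t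
      intro t ht
      rw [Finset.mem_filter, Finset.mem_filter] at ht
      rw [Finset.mem_filter]
      exact ⟨ht.1.1, ht.2⟩
    · refine Finset.sum_le_sum_of_subset_of_nonneg ?_ fun t _ _ => hF0 t
      intro t ht
      rw [Finset.mem_filter, Finset.mem_filter] at ht
      rw [Finset.mem_filter]
      refine ⟨ht.1.1, ?_⟩
      by_contra h
      exact ht.1.2 ⟨not_lt.1 ht.2, not_lt.1 h⟩
  have s3 : ∑ t ∈ R0.filter (fun t => t.2.1 < t.2.2.1), F t = ∑ t ∈ R0.filter (fun t => t.1 < t.2.2.2), F t := by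
    refine Finset.sum_nbij' (fun t => (t.2.1, t.1, t.2.2.2, t.2.2.1)) (fun t => (t.2.1, t.1, t.2.2.2, t.2.2.1)) ?_ ?_ ?_ ?_ ?_
    · intro t ht
      rw [Finset.mem_filter] at ht ⊢
      exact ⟨hR0e t ht.1, ht.2⟩
    · intro t ht
      rw [Finset.mem_filter] at ht ⊢
      exact ⟨hR0e t ht.1, ht.2⟩
    · intro t _
      rfl
    · intro t _
      rfl
    · intro t _
      exact (hFe t).symm
  -- the range `r < v`
  set H : ℕ × ℕ × ℕ × ℕ → ℝ := fun t => G64 q τ t.1 t.2.1 t.2.2.1 t.2.2.2 * (1 / ((t.2.1 : ℝ) * t.2.2.2)) with hHdef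
  have hH0 : ∀ t, 0 ≤ H t := fun t => mul_nonneg (G64_nonneg q τ hτ _ _ _ _) (by positivity)
  have hFH : ∀ t ∈ R0, F t ≤ H t := by
    intro t ht
    obtain ⟨⟨h1, h2, h3, h4⟩, e1, e2, e3⟩ := hR0m _ ht
    rw [hFdef, hHdef]
    simp only
    rw [wq_eq64 q τ t.1 t.2.1 t.2.2.1 t.2.2.2 e3]
    refine mul_le_mul_of_nonneg_left ?_ (G64_nonneg q τ hτ t.1 t.2.1 t.2.2.1 t.2.2.2)
    have hs0 : (0 : ℝ) < t.2.1 := by exact_mod_cast h2.1
    have hv0 : (0 : ℝ) < t.2.2.2 := by exact_mod_cast h4.1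
    refine one_div_le_one_div_of_le (by positivity) ?_
    have : t.2.1 * t.2.2.2 ≤ max (t.1 * t.2.2.1) (t.2.1 * t.2.2.2) := le_max_right _ _
    exact_mod_cast this
  have s4 : ∑ t ∈ R0.filter (fun t => t.1 < t.2.2.2), F t ≤ 48 * LL Y ^ 2 * Xi q τ := by
    have a1 : ∑ t ∈ R0.filter (fun t => t.1 < t.2.2.2), F t ≤ ∑ t ∈ R0.filter (fun t => t.1 < t.2.2.2), H t := by
      refine Finset.sum_le_sum fun t ht => hFH t ?_
      rw [Finset.mem_filter] at ht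
      exact ht.1
    refine a1.trans (le_trans ?_ (reg64 q Y τ hq hY hτ))
    refine Finset.sum_le_sum_of_subset_of_nonneg ?_ fun t _ _ => hH0 t
    intro t ht
    rw [Finset.mem_filter] at ht
    obtain ⟨⟨h1, h2, h3, h4⟩, e1, e2, e3⟩ := hR0m _ ht.1
    simp only [Finset.mem_filter, Finset.mem_product, Finset.mem_Icc]
    exact ⟨⟨h1, h2, h3, h4⟩, e1, ht.2, e3⟩
  -- the range `v ≤ r`, `u ≤ s`
  have s5 : ∑ t ∈ R0.filter (fun t => t.2.2.2 ≤ t.1 ∧ t.2.2.1 ≤ t.2.1), F t ≤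
      2 * ∑ t ∈ (R0.filter (fun t => t.2.2.2 ≤ t.1 ∧ t.2.2.1 ≤ t.2.1)).filter (fun t => t.1 ≤ t.2.1), F t := by
    refine dbl64 _ F hF0 (fun t => (t.2.1, t.1, t.2.2.2, t.2.2.1)) (fun t => rfl) ?_ hFe _ ?_
    · intro t ht
      rw [Finset.mem_filter] at ht ⊢
      exact ⟨hR0e t ht.1, ht.2.2, ht.2.1⟩
    · rintro ⟨r, s, u, v⟩ _
      exact le_total _ _
  set R := (R0.filter (fun t => t.2.2.2 ≤ t.1 ∧ t.2.2.1 ≤ t.2.1)).filter (fun t => t.1 ≤ t.2.1) with hR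
  have hRm : ∀ t ∈ R, ((1 ≤ t.1 ∧ t.1 ≤ Y) ∧ (1 ≤ t.2.1 ∧ t.2.1 ≤ Y) ∧ (1 ≤ t.2.2.1 ∧ t.2.2.1 ≤ Y) ∧ (1 ≤ t.2.2.2 ∧ t.2.2.2 ≤ Y)) ∧
      Nat.Coprime t.1 t.2.2.1 ∧ Nat.Coprime t.1 t.2.2.2 ∧ t.2.2.2 ≤ t.1 ∧ t.2.2.1 ≤ t.2.1 ∧ t.1 ≤ t.2.1 ∧
      t.2.2.1 * t.2.2.2 < t.1 * t.2.1 := by
    intro t ht
    rw [hR, Finset.mem_filter, Finset.mem_filter] at ht
    obtain ⟨h1, e1, e2, e3⟩ := hR0m t ht.1.1
    exact ⟨h1, e1, e2, ht.1.2.1, ht.1.2.2, ht.2, e3⟩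
  have s6 : ∑ t ∈ R, F t ≤ ∑ t ∈ R, G t := by
    refine Finset.sum_le_sum fun t ht => ?_
    obtain ⟨⟨h1, h2, h3, h4⟩, -, -, -, -, -, h5⟩ := hRm t ht
    exact F_le64 q τ hτ _ _ _ _ h1.1 h2.1 h3.1 h4.1 h5
  have c1 := case1 q Y τ hq hY hτ
  have c2 := case2 q Y τ hq hY hτ
  have s7 : ∑ t ∈ R.filter (fun t => t.1 ≤ t.2.2.1), G t ≤ 200 * LL Y ^ 2 * Xi q τ := by
    refine le_trans (Finset.sum_le_sum_of_subset_of_nonneg ?_ fun t _ _ => hG0 t) c1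
    intro t ht
    rw [Finset.mem_filter] at ht
    obtain ⟨⟨h1, h2, h3, h4⟩, e1, e2, e3, e4, e5, e6⟩ := hRm t ht.1
    simp only [Finset.mem_filter, Finset.mem_product, Finset.mem_Icc]
    exact ⟨⟨h1, h2, h3, h4⟩, e2, e3, e5, e4, ht.2, e6⟩
  have s8 : ∑ t ∈ (R.filter (fun t => ¬ t.1 ≤ t.2.2.1)).filter (fun t => t.2.2.2 ≤ t.2.2.1), G t ≤
      200 * LL Y ^ 2 * Xi q τ := by
    refine le_trans (Finset.sum_le_sum_of_subset_of_nonneg ?_ fun t _ _ => hG0 t) c2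
    intro t ht
    rw [Finset.mem_filter, Finset.mem_filter] at ht
    obtain ⟨⟨h1, h2, h3, h4⟩, e1, e2, e3, e4, e5, e6⟩ := hRm t ht.1.1
    simp only [Finset.mem_filter, Finset.mem_product, Finset.mem_Icc]
    exact ⟨⟨h1, h2, h3, h4⟩, e2, ht.2, (not_le.1 ht.1.2).le, e5, e6⟩
  have s9 : ∑ t ∈ (R.filter (fun t => ¬ t.1 ≤ t.2.2.1)).filter (fun t => ¬ t.2.2.2 ≤ t.2.2.1), G t ≤
      200 * LL Y ^ 2 * Xi q τ := by
    refine le_trans ?_ c2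
    have h7 : ∑ t ∈ (R.filter (fun t => ¬ t.1 ≤ t.2.2.1)).filter (fun t => ¬ t.2.2.2 ≤ t.2.2.1), G t =
        ∑ t ∈ ((R.filter (fun t => ¬ t.1 ≤ t.2.2.1)).filter (fun t => ¬ t.2.2.2 ≤ t.2.2.1)).image
          (fun t => (t.1, t.2.1, t.2.2.2, t.2.2.1)), G t := by
      rw [Finset.sum_image]
      · refine Finset.sum_congr rfl fun t _ => ?_
        exact g4_comm64 q τ _ _ _ _
      · rintro ⟨r, s, u, v⟩ _ ⟨r', s', u', v'⟩ _ h
        simp only [Prod.mk.injEq] at h ⊢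
        exact ⟨h.1, h.2.1, h.2.2.2, h.2.2.1⟩
    rw [h7]
    refine Finset.sum_le_sum_of_subset_of_nonneg ?_ fun t _ _ => hG0 t
    intro t' ht'
    rw [Finset.mem_image] at ht'
    obtain ⟨t, ht, rfl⟩ := ht'
    rw [Finset.mem_filter, Finset.mem_filter] at ht
    obtain ⟨⟨h1, h2, h3, h4⟩, e1, e2, e3, e4, e5, e6⟩ := hRm t ht.1.1
    simp only [Finset.mem_filter, Finset.mem_product, Finset.mem_Icc]
    refine ⟨⟨h1, h2, h4, h3⟩, e1, (not_le.1 ht.2).le, e3, e5, ?_⟩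
    rw [mul_comm]
    exact e6
  have s10 : ∑ t ∈ R, G t ≤ 600 * LL Y ^ 2 * Xi q τ := by
    rw [← Finset.sum_filter_add_sum_filter_not R (fun t => t.1 ≤ t.2.2.1),
      ← Finset.sum_filter_add_sum_filter_not (R.filter (fun t => ¬ t.1 ≤ t.2.2.1)) (fun t => t.2.2.2 ≤ t.2.2.1)]
    linarith
  rw [s3] at s2
  linarith

end Pool.Agent.Helper51.EA
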