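import Pool.Agent.Helper64.EA.QTwo
import Pool.Agent.Helper64.EA.VarQ

/-!
# Block EA-C4: the exact statement
-/

set_option autoImplicit false

namespace Pool.Agent.Helper51.EA

open Finset Pool.Agent.Helper5.RM Pool.Agent.Helper5.RS

theorem var_VQ2 : ∃ C : ℝ, 0 < C ∧ ∀ (S : Finset ℕ) (z Y R q : ℕ) (j : ℤ) (ρ : ℕ), PP Y ⊆ S → 1 ≤ q → 1 ≤ Y →
    1 ≤ R → ρ ≤ R → 2 * |(j : ℝ)| * Y ≤ R →
    av S (fun T => (VQ z Y R q j ρ T - mQ z Y R ρ) ^ 2) ≤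
      C * (q.divisors.card : ℝ) ^ 9 * LL Y ^ 2 * (4 + Real.log (tj j)) *
        (LL Y ^ 2 * (q * tj j) ^ (-(21 / 20) : ℝ) + LL Y / (q * tj j)) :=
  var_VQ2_of quad_sum2

end Pool.Agent.Helper51.EA
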